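import Pool.Agent.R153.GP2

/-!
# Strictness of the inequality between the prefixes `21` and `12` with gaps

The injection of `Pool.Agent.R153.GP2` keeps the key (board and outside dots).  For `r ≥ 1` and a
nonempty suffix pattern we exhibit, for all large `n`, a key with at most one `21`-avoider and at
least two `12`-avoiders.
-/

namespace Pool.Agent.N349.DD

open Finset Pool.Agent.R153.GP

section

variable {n s : ℕ} {τ : Fin s → ℕ} {Q : (Fin s → Fin n) → Prop} {g : ℕ}

/-- The injection of `R153.GP2`, with the fact that it keeps the key. -/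
theorem exists_injection_key (r : ℕ) :
    ∃ Φ : Equiv.Perm (Fin n) → Equiv.Perm (Fin n), (∀ π, V21 τ Q g r π → V12 τ Q g r (Φ π)) ∧
      (∀ π π', V21 τ Q g r π → V21 τ Q g r π' → Φ π = Φ π' → π = π') ∧
      (∀ π, V21 τ Q g r π → key τ Q g (Φ π) = key τ Q g π) := by
  classical
  have hex : ∀ (B : Fin n → Fin n → Prop) (X : Finset (Fin n)) (p0 : Equiv.Perm (Fin n)),
      ∃ φ : Equiv.Perm (Fin n) → Equiv.Perm (Fin n), Down B →
      (∀ p, A21 B r X p0 p → A12 B r X p0 (φ p)) ∧
      ∀ p q, A21 B r X p0 p → A21 B r X p0 q → φ p = φ q → p = q := by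
    intro B X p0
    by_cases hB : Down B
    · obtain ⟨φ, h1, h2⟩ := main_inj (r := r) hB X.card X rfl p0
      exact ⟨φ, fun _ => ⟨h1, h2⟩⟩
    · exact ⟨id, fun h => absurd h hB⟩
  choose φ hφ using hex
  set P : Equiv.Perm (Fin n) → Equiv.Perm (Fin n) :=
    fun π => Function.invFun (key τ Q g) (key τ Q g π) with hP
  have hkP : ∀ π, key τ Q g (P π) = key τ Q g π := fun π =>
    Function.invFun_eq (f := key τ Q g) ⟨π, rfl⟩
  have hin : ∀ π, V21 τ Q g r π → A21 (D τ Q g π) r (ins τ Q g π) (P π) π := by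
    intro π h
    refine ⟨⟨fun x hx => ?_, fun x hx => mem_ins.mp hx⟩, fun x _ y _ hxy hlt => h x y hxy hlt⟩
    rw [mem_ins] at hx
    exact (key_out τ Q g (hkP π) hx).symm
  set Φ : Equiv.Perm (Fin n) → Equiv.Perm (Fin n) :=
    fun π => φ (D τ Q g π) (ins τ Q g π) (P π) π with hΦ
  have hA : ∀ π, V21 τ Q g r π → A12 (D τ Q g π) r (ins τ Q g π) (P π) (Φ π) := by
    intro π h
    exact (hφ _ _ _ (D_down π)).1 π (hin π h)
  have hk : ∀ π, V21 τ Q g r π → key τ Q g (Φ π) = key τ Q g π := by
    intro π h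
    have h1 := hA π h
    apply key_eq
    · intro k hk
      have hk' : k ∉ ins τ Q g π := fun h' => hk (mem_ins.mp h')
      rw [h1.1.1 k hk']
      exact key_out τ Q g (hkP π) hk
    · intro k hk
      exact h1.1.2 k (mem_ins.mpr hk)
  refine ⟨Φ, ?_, ?_, hk⟩
  · intro π h x y hxy hlt hD
    have h1 := hA π h
    rw [key_D τ Q g (hk π h)] at hD
    have hy : y ∈ ins τ Q g (Φ π) := by
      rw [mem_ins, key_D τ Q g (hk π h)]
      exact hD
    have hx : x ∈ ins τ Q g (Φ π) := by
      rw [mem_ins, key_D τ Q g (hk π h)]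
      refine D_down π y (Φ π y) x (Φ π x) hD ?_ hlt.le
      rw [Fin.le_def]
      omega
    rw [key_ins (hk π h)] at hx hy
    exact absurd (h1.2 x hx y hy hxy) (not_lt.mpr hlt.le)
  · intro π π' h h' e
    have hkk : key τ Q g π = key τ Q g π' := by rw [← hk π h, ← hk π' h', e]
    have e1 : D τ Q g π = D τ Q g π' := key_D τ Q g hkk
    have e2 : ins τ Q g π = ins τ Q g π' := key_ins hkk
    have e3 : P π = P π' := by
      simp only [hP, hkk]
    have h3 := hin π' h'
    rw [← e1, ← e2, ← e3] at h3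
    apply (hφ _ _ _ (D_down π)).2 π π' (hin π h) h3
    have e4 : Φ π' = φ (D τ Q g π) (ins τ Q g π) (P π) π' := by
      simp only [hΦ, e1, e2, e3]
    rw [← e4]
    exact e

/-- A key with two `12`-avoiders and at most one `21`-avoider makes the inequality strict. -/
theorem strict (r : ℕ) {p₁ p₂ : Equiv.Perm (Fin n)} (hne : p₁ ≠ p₂) (h1 : V12 τ Q g r p₁)
    (h2 : V12 τ Q g r p₂) (hk : key τ Q g p₂ = key τ Q g p₁)
    (hu : ∀ π π', V21 τ Q g r π → V21 τ Q g r π' → key τ Q g π = key τ Q g p₁ →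
      key τ Q g π' = key τ Q g p₁ → π = π') :
    Nat.card {π : Equiv.Perm (Fin n) // V21 τ Q g r π} <
      Nat.card {π : Equiv.Perm (Fin n) // V12 τ Q g r π} := by
  obtain ⟨Φ, f1, f2, f3⟩ := exists_injection_key (τ := τ) (Q := Q) (g := g) (n := n) r
  set F : {π : Equiv.Perm (Fin n) // V21 τ Q g r π} →
    {π : Equiv.Perm (Fin n) // V12 τ Q g r π} := fun π => ⟨Φ π.1, f1 π.1 π.2⟩ with hF
  have hFi : Function.Injective F := fun a b h =>
    Subtype.ext (f2 a.1 b.1 a.2 b.2 (congrArg Subtype.val h))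
  refine lt_of_le_of_ne (Nat.card_le_card_of_injective F hFi) (fun heq => ?_)
  have hb : Function.Bijective F := (Nat.bijective_iff_injective_and_card F).2 ⟨hFi, heq⟩
  obtain ⟨a, ha⟩ := hb.2 ⟨p₁, h1⟩
  obtain ⟨b, hb⟩ := hb.2 ⟨p₂, h2⟩
  have ha' : Φ a.1 = p₁ := congrArg Subtype.val ha
  have hb' : Φ b.1 = p₂ := congrArg Subtype.val hb
  have hab : a.1 = b.1 := by
    apply hu a.1 b.1 a.2 b.2
    · rw [← f3 a.1 a.2, ha']
    · rw [← f3 b.1 b.2, hb', hk]
  apply hne
  rw [← ha', ← hb', hab]

end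

/-- A permutation with prescribed values on some positions, these being the smallest values, and
decreasing on the other positions. -/
theorem exists_perm {n : ℕ} {I : Type} [Fintype I] (P W : I → Fin n)
    (hP : Function.Injective P) (hW : Function.Injective W)
    (hlt : ∀ i, (W i : ℕ) < Fintype.card I) :
    ∃ π : Equiv.Perm (Fin n), (∀ i, π (P i) = W i) ∧
      (∀ p, (∀ i, P i ≠ p) → Fintype.card I ≤ (π p : ℕ)) ∧
      (∀ p p', (∀ i, P i ≠ p) → (∀ i, P i ≠ p') → p < p' → π p' < π p) := by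
  classical
  set S : Finset (Fin n) := univ.filter (fun p => ∀ i, P i ≠ p) with hS
  have hmem : ∀ p, p ∈ S ↔ ∀ i, P i ≠ p := by
    intro p
    rw [hS, mem_filter]
    exact ⟨fun h => h.2, fun h => ⟨mem_univ _, h⟩⟩
  have hcard : S.card + Fintype.card I = n := by
    have h1 : (univ.image P).card = Fintype.card I := by
      rw [card_image_of_injective _ hP, card_univ]
    have h2 : S = (univ.image P)ᶜ := by
      ext p
      rw [hmem, mem_compl, mem_image]
      simp
    rw [h2, card_compl, h1, Fintype.card_fin]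
    have h3 : Fintype.card I ≤ n := by
      have := Fintype.card_le_of_injective P hP
      rwa [Fintype.card_fin] at this
    omega
  set cnt : Fin n → ℕ := fun p => (S.filter (· < p)).card with hcnt
  have hcs : ∀ p, p ∈ S → cnt p < S.card := by
    intro p hp
    apply card_lt_card
    rw [ssubset_iff_of_subset (filter_subset _ _)]
    exact ⟨p, hp, fun h => absurd (mem_filter.mp h).2 (lt_irrefl p)⟩
  have hcm : ∀ p p', p ∈ S → p < p' → cnt p < cnt p' := by
    intro p p' hp hpp
    apply card_lt_card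
    rw [ssubset_iff_of_subset]
    · exact ⟨p, mem_filter.mpr ⟨hp, hpp⟩, fun h => absurd (mem_filter.mp h).2 (lt_irrefl p)⟩
    · intro x hx
      rw [mem_filter] at hx ⊢
      exact ⟨hx.1, hx.2.trans hpp⟩
  set f : Fin n → Fin n := fun p =>
    if h : ∃ i, P i = p then W h.choose else ⟨n - 1 - cnt p, by have := p.2; omega⟩ with hf
  have f1 : ∀ i, f (P i) = W i := by
    intro i
    have h : ∃ i', P i' = P i := ⟨i, rfl⟩
    have h2 : h.choose = i := hP h.choose_spec
    simp only [hf, dif_pos h, h2]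
  have f2 : ∀ p, (∀ i, P i ≠ p) → (f p : ℕ) = n - 1 - cnt p := by
    intro p hp
    have h : ¬ ∃ i', P i' = p := by
      push Not
      exact hp
    simp only [hf, dif_neg h]
  have f3 : ∀ p, (∀ i, P i ≠ p) → Fintype.card I ≤ (f p : ℕ) := by
    intro p hp
    rw [f2 p hp]
    have := hcs p ((hmem p).2 hp)
    omega
  have f4 : ∀ p p', (∀ i, P i ≠ p) → (∀ i, P i ≠ p') → p < p' → f p' < f p := by
    intro p p' hp hp' hpp
    rw [Fin.lt_def, f2 p hp, f2 p' hp']
    have h1 := hcs p' ((hmem p').2 hp')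
    have h2 := hcm p p' ((hmem p).2 hp) hpp
    omega
  have hinj : Function.Injective f := by
    intro p p' h
    by_cases hp : ∀ i, P i ≠ p
    · by_cases hp' : ∀ i, P i ≠ p'
      · rcases lt_trichotomy p p' with h1 | h1 | h1
        · exact absurd h (f4 p p' hp hp' h1).ne'
        · exact h1
        · exact absurd h (f4 p' p hp' hp h1).ne
      · push Not at hp'
        obtain ⟨i, rfl⟩ := hp'
        have h1 := f3 p hp
        rw [h, f1] at h1
        exact absurd (hlt i) (not_lt.mpr h1)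
    · push Not at hp
      obtain ⟨i, rfl⟩ := hp
      by_cases hp' : ∀ i, P i ≠ p'
      · have h1 := f3 p' hp'
        rw [← h, f1] at h1
        exact absurd (hlt i) (not_lt.mpr h1)
      · push Not at hp'
        obtain ⟨i', rfl⟩ := hp'
        rw [f1, f1] at h
        rw [hW h]
  refine ⟨Equiv.ofBijective f (Finite.injective_iff_bijective.1 hinj), ?_, ?_, ?_⟩
  · intro i
    exact f1 i
  · intro p hp
    exact f3 p hp
  · intro p p' hp hp' hpp
    exact f4 p p' hp hp' hpp

end Pool.Agent.N349.DD
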