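import Pool.Agent.N349.DD

/-!
# The strict inequality for uniform distant patterns
-/

namespace Pool.Agent.N349.DD

open Finset Pool.Agent.R153.GP

/-- gap condition -/
def Gap {n s : ℕ} (r : ℕ) (a : Fin s → Fin n) : Prop :=
  ∀ j j' : Fin s, (j' : ℕ) = j + 1 → (a j : ℕ) + (r + 1) ≤ a j'

theorem gap_far {n s : ℕ} {r : ℕ} {a : Fin s → Fin n} (h : Gap r a) :
    ∀ d : ℕ, ∀ j j' : Fin s, (j' : ℕ) = j + d → (a j : ℕ) + d * (r + 1) ≤ a j' := by
  intro d
  induction d with
  | zero =>
    intro j j' hj
    have : j' = j := Fin.ext (by omega)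
    rw [this]
    simp
  | succ d ih =>
    intro j j' hj
    have h1 := ih j ⟨j' - 1, by omega⟩ (by simp only; omega)
    have h2 := h ⟨j' - 1, by omega⟩ j' (by simp only; omega)
    rw [Nat.succ_mul]
    omega

/-- the index set: three inner dots, a first copy and a second copy of the suffix -/
abbrev Ix (s : ℕ) : Type := Fin 3 ⊕ (Fin s ⊕ Fin s)

/-- positions -/
def posN (N r : ℕ) {s : ℕ} : Ix s → ℕ
  | Sum.inl i => if i = 0 then N else if i = 1 then N + (r + 1) else N + (r + 1) + 1
  | Sum.inr (Sum.inl j) => N + ((j : ℕ) + 2) * (r + 1)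
  | Sum.inr (Sum.inr j) => N + ((j : ℕ) + 2) * (r + 1) + 1

/-- values -/
def valN {s : ℕ} (σ : Equiv.Perm (Fin s)) : Ix s → ℕ
  | Sum.inl i => if i = 0 then 3 else if i = 1 then 1 else 0
  | Sum.inr (Sum.inl j) => 4 + 2 * (σ j : ℕ)
  | Sum.inr (Sum.inr j) => if (σ j : ℕ) = 0 then 2 else 3 + 2 * (σ j : ℕ)

theorem card_Ix (s : ℕ) : Fintype.card (Ix s) = 2 * s + 3 := by
  simp [Ix]
  omega

theorem valN_lt {s : ℕ} (σ : Equiv.Perm (Fin s)) (hs : 1 ≤ s) (i : Ix s) :
    valN σ i < 2 * s + 3 := by
  rcases i with i | j | j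
  · unfold valN
    simp only
    split_ifs <;> omega
  · unfold valN
    simp only
    have := (σ j).2
    omega
  · unfold valN
    simp only
    have := (σ j).2
    split_ifs <;> omega

theorem valN_inj {s : ℕ} (σ : Equiv.Perm (Fin s)) : Function.Injective (valN σ) := by
  rintro (i | j | j) (i' | j' | j') h
  · unfold valN at h
    simp only at h
    congr 1
    fin_cases i <;> fin_cases i' <;> simp at h ⊢
  · exfalso
    unfold valN at h
    simp only at h
    split_ifs at h <;> omega
  · exfalso
    unfold valN at h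
    simp only at h
    split_ifs at h <;> omega
  · exfalso
    unfold valN at h
    simp only at h
    split_ifs at h <;> omega
  · unfold valN at h
    simp only at h
    have h1 : σ j = σ j' := Fin.ext (by omega)
    rw [σ.injective h1]
  · exfalso
    unfold valN at h
    simp only at h
    split_ifs at h <;> omega
  · exfalso
    unfold valN at h
    simp only at h
    split_ifs at h <;> omega
  · exfalso
    unfold valN at h
    simp only at h
    split_ifs at h <;> omega
  · unfold valN at h
    simp only at h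
    have h1 : σ j = σ j' := Fin.ext (by split_ifs at h <;> omega)
    rw [σ.injective h1]

theorem mul_step {a b r : ℕ} (h : a < b) : a * (r + 1) + (r + 1) ≤ b * (r + 1) := by
  have : (a + 1) * (r + 1) ≤ b * (r + 1) := Nat.mul_le_mul_right _ h
  rw [Nat.succ_mul] at this
  exact this

theorem posN_inj (N : ℕ) {r s : ℕ} (hr : 1 ≤ r) : Function.Injective (posN N r (s := s)) := by
  have key : ∀ j : Fin s, 2 * (r + 1) ≤ ((j : ℕ) + 2) * (r + 1) := fun j =>
    Nat.mul_le_mul_right _ (by omega)
  rintro (i | j | j) (i' | j' | j') h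
  · unfold posN at h
    simp only at h
    congr 1
    fin_cases i <;> fin_cases i' <;> simp at h ⊢ <;> omega
  · exfalso
    unfold posN at h
    simp only at h
    have := key j'
    split_ifs at h <;> omega
  · exfalso
    unfold posN at h
    simp only at h
    have := key j'
    split_ifs at h <;> omega
  · exfalso
    unfold posN at h
    simp only at h
    have := key j
    split_ifs at h <;> omega
  · unfold posN at h
    simp only at h
    rcases lt_trichotomy (j : ℕ) j' with h1 | h1 | h1
    · have := mul_step (r := r) (show (j : ℕ) + 2 < j' + 2 by omega)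
      omega
    · rw [Fin.ext h1]
    · have := mul_step (r := r) (show (j' : ℕ) + 2 < j + 2 by omega)
      omega
  · exfalso
    unfold posN at h
    simp only at h
    rcases lt_trichotomy (j : ℕ) j' with h1 | h1 | h1
    · have := mul_step (r := r) (show (j : ℕ) + 2 < j' + 2 by omega)
      omega
    · rw [h1] at h
      omega
    · have := mul_step (r := r) (show (j' : ℕ) + 2 < j + 2 by omega)
      omega
  · exfalso
    unfold posN at h
    simp only at h
    have := key j
    split_ifs at h <;> omega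
  · exfalso
    unfold posN at h
    simp only at h
    rcases lt_trichotomy (j : ℕ) j' with h1 | h1 | h1
    · have := mul_step (r := r) (show (j : ℕ) + 2 < j' + 2 by omega)
      omega
    · rw [h1] at h
      omega
    · have := mul_step (r := r) (show (j' : ℕ) + 2 < j + 2 by omega)
      omega
  · unfold posN at h
    simp only at h
    rcases lt_trichotomy (j : ℕ) j' with h1 | h1 | h1
    · have := mul_step (r := r) (show (j : ℕ) + 2 < j' + 2 by omega)
      omega
    · rw [Fin.ext h1]
    · have := mul_step (r := r) (show (j' : ℕ) + 2 < j + 2 by omega)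
      omega

/-- **Strictness.** For `r ≥ 1`, a nonempty suffix pattern `σ` of size `s = t + 1` and
`n = N + (s + 1)(r + 1) + 2`. -/
theorem strict_gap (N t r : ℕ) (hr : 1 ≤ r) (σ : Equiv.Perm (Fin (t + 1))) {n : ℕ}
    (hn : n = N + (t + 2) * (r + 1) + 2) :
    Nat.card {π : Equiv.Perm (Fin n) // V21 (fun j => (σ j : ℕ)) (Gap r) r r π} <
      Nat.card {π : Equiv.Perm (Fin n) // V12 (fun j => (σ j : ℕ)) (Gap r) r r π} := by
  have hpos : ∀ i : Ix (t + 1), posN N r i < n := by
    rintro (i | j | j)
    · unfold posN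
      simp only
      have := Nat.mul_le_mul_right (r + 1) (show 2 ≤ t + 2 by omega)
      split_ifs <;> omega
    · unfold posN
      simp only
      have := Nat.mul_le_mul_right (r + 1) (show (j : ℕ) + 2 ≤ t + 2 by omega)
      omega
    · unfold posN
      simp only
      have := Nat.mul_le_mul_right (r + 1) (show (j : ℕ) + 2 ≤ t + 2 by omega)
      omega
  have hvn : ∀ i : Ix (t + 1), valN σ i < n := by
    intro i
    have h1 := valN_lt σ (by omega) i
    have h2 : 2 * (t + 1) + 3 ≤ (t + 2) * (r + 1) + 2 := by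
      have := Nat.mul_le_mul_left (t + 2) (show 2 ≤ r + 1 by omega)
      omega
    omega
  set P : Ix (t + 1) → Fin n := fun i => ⟨posN N r i, hpos i⟩ with hP
  set W : Ix (t + 1) → Fin n := fun i => ⟨valN σ i, hvn i⟩ with hW
  have hPi : Function.Injective P := fun a b h => posN_inj N hr (congrArg Fin.val h)
  have hWi : Function.Injective W := fun a b h => valN_inj σ (congrArg Fin.val h)
  obtain ⟨π, hπ1, hπ2, hπ3⟩ := exists_perm P W hPi hWi (fun i => by
    rw [card_Ix]
    exact valN_lt σ (by omega) i)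
  rw [card_Ix] at hπ2
  -- names of the inner positions
  set c0 : Fin n := P (Sum.inl 0) with hc0
  set c1 : Fin n := P (Sum.inl 1) with hc1
  set c2 : Fin n := P (Sum.inl 2) with hc2
  have v0 : (c0 : ℕ) = N := rfl
  have v1 : (c1 : ℕ) = N + (r + 1) := rfl
  have v2 : (c2 : ℕ) = N + (r + 1) + 1 := rfl
  have w0 : (π c0 : ℕ) = 3 := by rw [hc0, hπ1]; rfl
  have w1 : (π c1 : ℕ) = 1 := by rw [hc1, hπ1]; rfl
  have w2 : (π c2 : ℕ) = 0 := by rw [hc2, hπ1]; rfl
  set A : Fin (t + 1) → Fin n := fun j => P (Sum.inr (Sum.inl j)) with hA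
  set B : Fin (t + 1) → Fin n := fun j => P (Sum.inr (Sum.inr j)) with hB
  have vA : ∀ j, (A j : ℕ) = N + ((j : ℕ) + 2) * (r + 1) := fun j => rfl
  have vB : ∀ j, (B j : ℕ) = N + ((j : ℕ) + 2) * (r + 1) + 1 := fun j => rfl
  have wA : ∀ j, (π (A j) : ℕ) = 4 + 2 * (σ j : ℕ) := by
    intro j
    rw [hA]
    simp only
    rw [hπ1]
    rfl
  have wB : ∀ j, (π (B j) : ℕ) = if (σ j : ℕ) = 0 then 2 else 3 + 2 * (σ j : ℕ) := by
    intro j
    rw [hB]
    simp only
    rw [hπ1]
    rfl
  have key2 : ∀ j : Fin (t + 1), 2 * (r + 1) ≤ ((j : ℕ) + 2) * (r + 1) := fun j =>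
    Nat.mul_le_mul_right _ (by omega)
  set T := fun j : Fin (t + 1) => (σ j : ℕ) with hT
  -- copy A
  have D1 : ∀ v : Fin n, (v : ℕ) ≤ 3 → D T (Gap r) r π c1 v := by
    intro v hv
    refine ⟨A, fun j => ?_, fun j j' hj => ?_, fun j => ?_, fun j j' => ?_⟩
    · rw [v1, vA]
      have := key2 j
      omega
    · rw [vA, vA, hj]
      have := mul_step (r := r) (show (j : ℕ) + 2 < j + 1 + 2 by omega)
      omega
    · rw [Fin.lt_def, wA]
      omega
    · rw [Fin.lt_def, wA, wA, hT]
      simp only
      omega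
  -- copy B
  have D2 : ∀ v : Fin n, (v : ℕ) ≤ 1 → D T (Gap r) r π c2 v := by
    intro v hv
    refine ⟨B, fun j => ?_, fun j j' hj => ?_, fun j => ?_, fun j j' => ?_⟩
    · rw [v2, vB]
      have := key2 j
      omega
    · rw [vB, vB, hj]
      have := mul_step (r := r) (show (j : ℕ) + 2 < j + 1 + 2 by omega)
      omega
    · rw [Fin.lt_def, wB]
      split_ifs <;> omega
    · rw [Fin.lt_def, wB, wB, hT]
      simp only
      split_ifs <;> omega
  -- the height of column `c2`
  have D3 : ∀ v : Fin n, 3 ≤ (v : ℕ) → ¬ D T (Gap r) r π c2 v := by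
    rintro v hv ⟨a, a1, a2, a3, a4⟩
    obtain ⟨j, hj⟩ := σ.surjective 0
    have h1 := gap_far a2 j 0 j (by simp)
    have h2 := gap_far a2 (t - j) j (Fin.last t) (by simp [Fin.val_last]; omega)
    have h3 := a1 0
    have h4 := (a (Fin.last t)).2
    have h5 : (j : ℕ) * (r + 1) + (t - j) * (r + 1) = t * (r + 1) := by
      rw [← Nat.add_mul]
      congr 1
      omega
    have h6 : (t + 2) * (r + 1) = t * (r + 1) + 2 * (r + 1) := by rw [← Nat.add_mul]
    have h7 : ((j : ℕ) + 2) * (r + 1) = j * (r + 1) + 2 * (r + 1) := by rw [← Nat.add_mul]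
    have h8 : a j = B j := by
      apply Fin.ext
      rw [vB]
      omega
    have h9 := a3 j
    rw [h8, Fin.lt_def, wB, hj] at h9
    simp at h9
    omega
  -- no room
  have D4 : ∀ k v : Fin n, N + 2 * (r + 1) ≤ (k : ℕ) → ¬ D T (Gap r) r π k v := by
    rintro k v hk ⟨a, a1, a2, a3, a4⟩
    have h2 := gap_far a2 t 0 (Fin.last t) (by simp [Fin.val_last])
    have h3 := a1 0
    have h4 := (a (Fin.last t)).2
    have h6 : (t + 2) * (r + 1) = t * (r + 1) + 2 * (r + 1) := by rw [← Nat.add_mul]
    omega
  -- fillers are outside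
  have D5 : ∀ p : Fin n, (∀ i, P i ≠ p) → ¬ D T (Gap r) r π p (π p) := by
    rintro p hp ⟨a, a1, a2, a3, a4⟩
    have h1 := a1 0
    have h2 := a3 0
    by_cases hq : ∀ i, P i ≠ a 0
    · have := hπ3 p (a 0) hp hq (by rw [Fin.lt_def]; omega)
      exact absurd this (not_lt.mpr h2.le)
    · push Not at hq
      obtain ⟨i, hi⟩ := hq
      rw [← hi, hπ1] at h2
      have h3 := hπ2 p hp
      have h4 : (W i : ℕ) < 2 * (t + 1) + 3 := valN_lt σ (by omega) i
      rw [Fin.lt_def] at h2
      omega
  have hout : ∀ k : Fin n, k ≠ c0 → k ≠ c1 → k ≠ c2 → ¬ D T (Gap r) r π k (π k) := by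
    intro k k0 k1 k2
    by_cases hk : ∀ i, P i ≠ k
    · exact D5 k hk
    · push Not at hk
      obtain ⟨i, rfl⟩ := hk
      rcases i with i | j | j
      · exfalso
        fin_cases i
        · exact k0 rfl
        · exact k1 rfl
        · exact k2 rfl
      · apply D4
        have h1 : ((P (Sum.inr (Sum.inl j)) : Fin n) : ℕ) = N + ((j : ℕ) + 2) * (r + 1) := rfl
        rw [h1]
        have := key2 j
        omega
      · apply D4
        have h1 : ((P (Sum.inr (Sum.inr j)) : Fin n) : ℕ) = N + ((j : ℕ) + 2) * (r + 1) + 1 := rfl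
        rw [h1]
        have := key2 j
        omega
  have n01 : c0 ≠ c1 := fun h => by
    have := congrArg Fin.val h
    omega
  have n02 : c0 ≠ c2 := fun h => by
    have := congrArg Fin.val h
    omega
  have n12 : c1 ≠ c2 := fun h => by
    have := congrArg Fin.val h
    omega
  have D0 : ∀ v : Fin n, (v : ℕ) ≤ 3 → D T (Gap r) r π c0 v := fun v hv =>
    D_down π c1 v c0 v (D1 v hv) (by rw [Fin.le_def]; omega) le_rfl
  -- the second permutation
  set ρ : Equiv.Perm (Fin n) := (Equiv.swap c1 c2).trans π with hρ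
  have r1 : ρ c1 = π c2 := by
    rw [hρ, Equiv.trans_apply, Equiv.swap_apply_left]
  have r2 : ρ c2 = π c1 := by
    rw [hρ, Equiv.trans_apply, Equiv.swap_apply_right]
  have r3 : ∀ k, k ≠ c1 → k ≠ c2 → ρ k = π k := by
    intro k k1 k2
    rw [hρ, Equiv.trans_apply, Equiv.swap_apply_of_ne_of_ne k1 k2]
  have hkey : key T (Gap r) r ρ = key T (Gap r) r π := by
    apply key_eq
    · intro k hk
      apply r3
      · rintro rfl
        exact hk (D1 _ (by omega))
      · rintro rfl
        exact hk (D2 _ (by omega))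
    · intro k hk
      by_cases k1 : k = c1
      · rw [k1, r1]
        exact D1 _ (by omega)
      · by_cases k2 : k = c2
        · rw [k2, r2]
          exact D2 _ (by omega)
        · rw [r3 k k1 k2]
          exact hk
  have hne : π ≠ ρ := by
    intro h
    have h1 : π c1 = π c2 := by
      rw [← r1, ← h]
    exact n12 (π.injective h1)
  -- inner positions of any permutation with this key
  have hins : ∀ π' : Equiv.Perm (Fin n), key T (Gap r) r π' = key T (Gap r) r π →
      ∀ k, D T (Gap r) r π' k (π' k) → k = c0 ∨ k = c1 ∨ k = c2 := by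
    intro π' hk' k hk
    rw [← mem_ins, key_ins hk', mem_ins] at hk
    by_contra hcon
    push Not at hcon
    exact hout k hcon.1 hcon.2.1 hcon.2.2 hk
  have hV : ∀ π' : Equiv.Perm (Fin n), key T (Gap r) r π' = key T (Gap r) r π →
      π' c1 < π' c0 → π' c2 < π' c0 → V12 T (Gap r) r r π' := by
    intro π' hk' h10 h20 x y hxy hlt hD
    have hy := hins π' hk' y hD
    have hx := hins π' hk' x (D_down π' y (π' y) x (π' x) hD (by rw [Fin.le_def]; omega) hlt.le)
    rcases hy with rfl | rfl | rfl
    · rcases hx with rfl | rfl | rfl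
      · exact absurd hlt (lt_irrefl _)
      · omega
      · omega
    · rcases hx with rfl | rfl | rfl
      · exact absurd hlt (not_lt.mpr h10.le)
      · exact absurd hlt (lt_irrefl _)
      · omega
    · rcases hx with rfl | rfl | rfl
      · exact absurd hlt (not_lt.mpr h20.le)
      · omega
      · exact absurd hlt (lt_irrefl _)
  refine strict r hne (hV π rfl ?_ ?_) (hV ρ hkey ?_ ?_) hkey ?_
  · rw [Fin.lt_def]
    omega
  · rw [Fin.lt_def]
    omega
  · rw [r1, r3 c0 n01 n02, Fin.lt_def]
    omega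
  · rw [r2, r3 c0 n01 n02, Fin.lt_def]
    omega
  · -- uniqueness
    have hval : ∀ π' : Equiv.Perm (Fin n), V21 T (Gap r) r r π' →
        key T (Gap r) r π' = key T (Gap r) r π →
        (∀ k, k ≠ c0 → k ≠ c1 → k ≠ c2 → π' k = π k) ∧ (π' c0 : ℕ) = 0 ∧ (π' c1 : ℕ) = 3 ∧
          (π' c2 : ℕ) = 1 := by
      intro π' hV' hk'
      have e1 : ∀ k, k ≠ c0 → k ≠ c1 → k ≠ c2 → π' k = π k := fun k k0 k1 k2 =>
        key_out T (Gap r) r hk' (hout k k0 k1 k2)
      have e2 : ∀ k, k = c0 ∨ k = c1 ∨ k = c2 →
          (π' k : ℕ) = 0 ∨ (π' k : ℕ) = 1 ∨ (π' k : ℕ) = 3 := by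
        intro k hk
        obtain ⟨x, hx⟩ := π.surjective (π' k)
        by_cases x0 : x = c0
        · rw [← hx, x0]
          omega
        by_cases x1 : x = c1
        · rw [← hx, x1]
          omega
        by_cases x2 : x = c2
        · rw [← hx, x2]
          omega
        exfalso
        have h1 := e1 x x0 x1 x2
        rw [hx] at h1
        have h2 := π'.injective h1
        rw [h2] at x0 x1 x2
        rcases hk with h | h | h
        · exact x0 h
        · exact x1 h
        · exact x2 h
      have eD : D T (Gap r) r π' = D T (Gap r) r π := key_D T (Gap r) r hk'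
      have m2 : (π' c2 : ℕ) ≠ 3 := by
        intro h
        have h1 : c2 ∈ ins T (Gap r) r π := by
          rw [mem_ins]
          exact D2 _ (by omega)
        rw [← key_ins hk', mem_ins, eD] at h1
        exact D3 (π' c2) (by omega) h1
      have m01 : ¬ π' c1 < π' c0 := by
        intro h
        apply hV' c0 c1 (by omega) h
        rw [eD]
        apply D1
        have := e2 c0 (Or.inl rfl)
        omega
      have m02 : π' c2 < π' c0 → 1 < (π' c0 : ℕ) := by
        intro h
        by_contra hcon
        apply hV' c0 c2 (by omega) h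
        rw [eD]
        apply D2
        omega
      have i01 : (π' c0 : ℕ) ≠ π' c1 := fun h => n01 (π'.injective (Fin.ext h))
      have i02 : (π' c0 : ℕ) ≠ π' c2 := fun h => n02 (π'.injective (Fin.ext h))
      have i12 : (π' c1 : ℕ) ≠ π' c2 := fun h => n12 (π'.injective (Fin.ext h))
      have f0 := e2 c0 (Or.inl rfl)
      have f1 := e2 c1 (Or.inr (Or.inl rfl))
      have f2 := e2 c2 (Or.inr (Or.inr rfl))
      rw [Fin.lt_def] at m01 m02
      refine ⟨e1, ?_, ?_, ?_⟩ <;> omega
    intro π' π'' hV' hV'' hk' hk''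
    obtain ⟨a1, a2, a3, a4⟩ := hval π' hV' hk'
    obtain ⟨b1, b2, b3, b4⟩ := hval π'' hV'' hk''
    apply Equiv.ext
    intro k
    by_cases k0 : k = c0
    · rw [k0]
      exact Fin.ext (by omega)
    by_cases k1 : k = c1
    · rw [k1]
      exact Fin.ext (by omega)
    by_cases k2 : k = c2
    · rw [k2]
      exact Fin.ext (by omega)
    rw [a1 k k0 k1 k2, b1 k k0 k1 k2]

end Pool.Agent.N349.DD
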