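import Pool.Agent.N988.ES.Stm

/-!
# Project ES (helper988), leaf PIV (helper349): recursive description of the pivotal set
-/

set_option autoImplicit false

namespace Pool.Agent.N349.ES

open MeasureTheory Set Filter
open Pool.Agent.N988.EA Pool.Agent.N988.EC Pool.Agent.N988.EP Pool.Agent.N988.ES

theorem cross_one {b n : ℕ} (w : Edge b n → Bool) : cross w = 1 ↔ across w = 0 := by
  unfold cross
  constructor
  · intro h
    by_contra hcon
    rw [if_neg hcon] at h
    norm_num at h
  · intro h
    rw [if_pos h]

theorem cross_cases {b n : ℕ} (w : Edge b n → Bool) : cross w = 1 ∨ cross w = -1 := by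
  unfold cross
  by_cases h : across w = 0
  · rw [if_pos h]
    exact Or.inl rfl
  · rw [if_neg h]
    exact Or.inr rfl

theorem cross_ne {b n : ℕ} (w w' : Edge b n → Bool) :
    cross w' ≠ cross w ↔ ¬ (cross w' = 1 ↔ cross w = 1) := by
  rcases cross_cases w with h | h <;> rcases cross_cases w' with h' | h' <;> rw [h, h'] <;>
    norm_num

open Classical in
theorem mem_piv {b n : ℕ} (w : Edge b n → Bool) (e : Edge b n) :
    e ∈ piv w ↔ ¬ (cross (Function.update w e (!w e)) = 1 ↔ cross w = 1) := by
  rw [← cross_ne]
  exact Iff.rfl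

theorem Y_zero {b : ℕ} (hb : 1 ≤ b) (n : ℕ) (w : Edge b (n + 1) → Bool) :
    Y (n + 1) w = 0 ↔ ∃ i, Y n (sub w i false) = 0 ∧ Y n (sub w i true) = 0 := by
  have hne : Nonempty (Fin b) := ⟨⟨0, hb⟩⟩
  have hdef : Y (n + 1) w = sInf (Set.range fun i : Fin b =>
      (Y n (sub w i false) + Y n (sub w i true))) := rfl
  constructor
  · intro h
    have hm := Nat.sInf_mem (Set.range_nonempty fun i : Fin b =>
      (Y n (sub w i false) + Y n (sub w i true)))
    rw [← hdef, h] at hm
    obtain ⟨i, hi⟩ := hm
    have hi' : Y n (sub w i false) + Y n (sub w i true) = 0 := hi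
    exact ⟨i, by omega, by omega⟩
  · rintro ⟨i, h1, h2⟩
    have hle : Y (n + 1) w ≤ Y n (sub w i false) + Y n (sub w i true) := by
      rw [hdef]
      exact Nat.sInf_le ⟨i, rfl⟩
    omega

theorem logic (A' A B R : Prop) :
    ¬ (((A' ∧ B) ∨ R) ↔ ((A ∧ B) ∨ R)) ↔ ¬ (A' ↔ A) ∧ B ∧ ¬ R := by
  by_cases hA : A <;> by_cases hA' : A' <;> by_cases hB : B <;> by_cases hR : R <;>
    simp [hA, hA', hB, hR]

open Classical in
/-- **Q4**: recursive description of the pivotal set. -/
theorem t_PIV : S_PIV := by
  intro b hb
  have hY : ∀ (n : ℕ) (w : Edge b n → Bool), across w = Y n w := (k_LOW b hb).1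
  have hcr : ∀ (n : ℕ) (w : Edge b (n + 1) → Bool), cross w = 1 ↔
      ∃ i, cross (sub w i false) = 1 ∧ cross (sub w i true) = 1 := by
    intro n w
    simp only [cross_one, hY]
    exact Y_zero hb n w
  refine ⟨?_, fun _ w => cross_cases w, hcr, ?_⟩
  · intro w e
    rw [mem_piv, cross_one, cross_one, hY, hY]
    have h0 : ∀ w : Edge b 0 → Bool, Y 0 w = 0 ↔ w () = false := by
      intro w
      show (if w () then 1 else 0) = 0 ↔ w () = false
      cases w () <;> simp
    have he : e = (() : Unit) := rfl
    rw [h0, h0, he]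
    have h1 : Function.update w (() : Unit) (!w (() : Unit)) () = !w () :=
      Function.update_self _ _ _
    rw [h1]
    cases w () <;> simp
  · intro n w i s e
    obtain ⟨E, hE⟩ : ∃ E : Edge b (n + 1), E = ((i, s, e) : Edge b (n + 1)) := ⟨_, rfl⟩
    have key : E ∈ piv w ↔ e ∈ piv (sub w i s) ∧ cross (sub w i (!s)) = 1 ∧
        ∀ j, j ≠ i → ¬ (cross (sub w j false) = 1 ∧ cross (sub w j true) = 1) := by
      obtain ⟨w', hw'⟩ : ∃ w' : Edge b (n + 1) → Bool, w' = Function.update w E (!w E) := ⟨_, rfl⟩
      have hsame : w' E = !w E := by rw [hw', Function.update_self]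
      have hother : ∀ E', E' ≠ E → w' E' = w E' := by
        intro E' h
        rw [hw', Function.update_of_ne h]
      have h1 : sub w' i s = Function.update (sub w i s) e (!(sub w i s e)) := by
        funext e'
        by_cases h : e' = e
        · rw [h, Function.update_self]
          have h3 : sub w' i s e = w' E := by rw [hE]; rfl
          have h4 : sub w i s e = w E := by rw [hE]; rfl
          rw [h3, h4, hsame]
        · rw [Function.update_of_ne h]
          refine hother _ ?_
          intro h2
          rw [hE] at h2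
          exact h (congrArg (fun q : Fin b × Bool × Edge b n => q.2.2) h2)
      have h2 : ∀ (j : Fin b) (t : Bool), (j, t) ≠ (i, s) → sub w' j t = sub w j t := by
        intro j t hjt
        funext e'
        refine hother _ ?_
        intro h2
        rw [hE] at h2
        apply hjt
        have h3 := congrArg (fun q : Fin b × Bool × Edge b n => (q.1, q.2.1)) h2
        exact h3
      rw [mem_piv, mem_piv, ← hw', hcr, hcr n w]
      have hsplit : ∀ c : Fin b → Bool → Prop, (∃ j, c j false ∧ c j true) ↔
          ((c i s ∧ c i (!s)) ∨ ∃ j, j ≠ i ∧ (c j false ∧ c j true)) := by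
        intro c
        constructor
        · rintro ⟨j, h3, h4⟩
          by_cases hji : j = i
          · left
            subst hji
            cases s
            · exact ⟨h3, h4⟩
            · exact ⟨h4, h3⟩
          · exact Or.inr ⟨j, hji, h3, h4⟩
        · rintro (⟨h3, h4⟩ | ⟨j, -, h3⟩)
          · refine ⟨i, ?_⟩
            cases s
            · exact ⟨h3, h4⟩
            · exact ⟨h4, h3⟩
          · exact ⟨j, h3⟩
      have e1 := hsplit (fun j t => cross (sub w j t) = 1)
      have e2 := hsplit (fun j t => cross (sub w' j t) = 1)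
      have h3 : ∀ j, j ≠ i → ∀ t, sub w' j t = sub w j t := by
        intro j hj t
        exact h2 j t fun h => hj (congrArg Prod.fst h)
      have h4 : sub w' i (!s) = sub w i (!s) := by
        apply h2
        intro h
        have := congrArg Prod.snd h
        cases s <;> simp at this
      have h5 : (∃ j, j ≠ i ∧ (cross (sub w' j false) = 1 ∧ cross (sub w' j true) = 1)) ↔
          ∃ j, j ≠ i ∧ (cross (sub w j false) = 1 ∧ cross (sub w j true) = 1) := by
        constructor
        · rintro ⟨j, hj, h6⟩
          rw [h3 j hj, h3 j hj] at h6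
          exact ⟨j, hj, h6⟩
        · rintro ⟨j, hj, h6⟩
          refine ⟨j, hj, ?_⟩
          rw [h3 j hj, h3 j hj]
          exact h6
      rw [e1, e2, h5, h4, h1]
      have h6 : (∀ j, j ≠ i → ¬ (cross (sub w j false) = 1 ∧ cross (sub w j true) = 1)) ↔
          ¬ ∃ j, j ≠ i ∧ (cross (sub w j false) = 1 ∧ cross (sub w j true) = 1) := by
        constructor
        · rintro h ⟨j, hj, h7⟩
          exact h j hj h7
        · intro h j hj h7
          exact h ⟨j, hj, h7⟩
      rw [h6]
      exact logic _ _ _ _
    rw [hE] at key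
    exact key

end Pool.Agent.N349.ES
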