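import Pool.Agent.N378.KH.Stm2

set_option autoImplicit false

/-! Project KH (helper378), part UNI: the hyperplane through `m + 1` points in general position. -/

namespace Pool.Agent.N349.KH

open Pool.Agent.N378.KH

theorem t_UNI : S_UNI := by
  intro n m x hn hG T u v c d hT hu hv hc hd
  obtain ⟨i0, hi0⟩ : ∃ i0, i0 ∉ T := by
    by_contra h
    push Not at h
    have h1 : T = Finset.univ := Finset.eq_univ_iff_forall.mpr h
    rw [h1, Finset.card_univ, Fintype.card_fin] at hT
    omega
  have hcard : (insert i0 T).card = m + 2 := by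
    rw [Finset.card_insert_of_notMem hi0, hT]
  have hgen := hG _ hcard
  set A := ∑ j, u j * x i0 j with hA
  set B := ∑ j, v j * x i0 j with hB
  have ha : A - c ≠ 0 := by
    intro h
    refine hgen ⟨u, c, hu, fun i hi => ?_⟩
    rcases Finset.mem_insert.mp hi with rfl | hi
    · linarith
    · exact hc i hi
  have hw : (A - c) • v - (B - d) • u = 0 := by
    by_contra hw
    refine hgen ⟨(A - c) • v - (B - d) • u, (A - c) * d - (B - d) * c, hw, fun i hi => ?_⟩
    have e : ∑ j, ((A - c) • v - (B - d) • u) j * x i j =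
        (A - c) * ∑ j, v j * x i j - (B - d) * ∑ j, u j * x i j := by
      rw [Finset.mul_sum, Finset.mul_sum, ← Finset.sum_sub_distrib]
      refine Finset.sum_congr rfl fun j _ => ?_
      simp only [Pi.sub_apply, Pi.smul_apply, smul_eq_mul]
      ring
    rw [e]
    rcases Finset.mem_insert.mp hi with rfl | hi
    · rw [← hA, ← hB]; ring
    · rw [hc i hi, hd i hi]
  have hv' : v = ((B - d) / (A - c)) • u := by
    have h1 : (A - c) • v = (B - d) • u := sub_eq_zero.mp hw
    rw [div_eq_inv_mul, mul_smul, ← h1, smul_smul, inv_mul_cancel₀ ha, one_smul]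
  generalize (B - d) / (A - c) = t at hv'
  refine ⟨t, ?_, hv', ?_⟩
  · intro h
    rw [h, zero_smul] at hv'
    exact hv hv'
  · obtain ⟨i, hi⟩ : T.Nonempty := by
      rw [← Finset.card_pos, hT]
      omega
    rw [← hd i hi, ← hc i hi, Finset.mul_sum]
    refine Finset.sum_congr rfl fun j _ => ?_
    have hj : v j = t * u j := by
      rw [hv']
      rfl
    rw [hj, mul_assoc]

end Pool.Agent.N349.KH
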