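import Mathlib

/-!
# Limit sequence of the pattern 1243: prepending a first value

`consP v τ` is the permutation with first value `v` whose remaining entries are order-isomorphic to
`τ`.  We record how the inversion number, 1243-avoidance, the largest smaller element of an
inversion (`tst`) and the largest `1` of an occurrence of `132` (`dst`) change.
-/

set_option autoImplicit false

namespace Pool.Agent.N349.LS

open Finset

/-- the permutation with first value `v` followed by the pattern `τ` -/
noncomputable def consP {n : ℕ} (v : Fin (n + 1)) (τ : Equiv.Perm (Fin n)) :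
    Equiv.Perm (Fin (n + 1)) :=
  Equiv.ofBijective (Fin.cons (α := fun _ => Fin (n + 1)) v (fun i => v.succAbove (τ i))) (by
    rw [← Finite.injective_iff_bijective]
    intro i j hij
    induction i using Fin.cases with
    | zero =>
      induction j using Fin.cases with
      | zero => rfl
      | succ j =>
        rw [Fin.cons_zero, Fin.cons_succ] at hij
        exact absurd hij.symm (Fin.succAbove_ne v _)
    | succ i =>
      induction j using Fin.cases with
      | zero =>
        rw [Fin.cons_zero, Fin.cons_succ] at hij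
        exact absurd hij (Fin.succAbove_ne v _)
      | succ j =>
        rw [Fin.cons_succ, Fin.cons_succ] at hij
        have := τ.injective (Fin.succAbove_right_injective hij)
        rw [this])

theorem consP_zero {n : ℕ} (v : Fin (n + 1)) (τ : Equiv.Perm (Fin n)) : consP v τ 0 = v := by
  simp [consP]

theorem consP_succ {n : ℕ} (v : Fin (n + 1)) (τ : Equiv.Perm (Fin n)) (i : Fin n) :
    consP v τ i.succ = v.succAbove (τ i) := by
  simp [consP]

theorem consP_bij {n : ℕ} :
    Function.Bijective (fun p : Fin (n + 1) × Equiv.Perm (Fin n) => consP p.1 p.2) := by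
  rw [Fintype.bijective_iff_injective_and_card]
  constructor
  · rintro ⟨v, τ⟩ ⟨v', τ'⟩ h
    simp only at h
    have h0 : v = v' := by
      have := DFunLike.congr_fun h 0
      rwa [consP_zero, consP_zero] at this
    subst h0
    have h1 : τ = τ' := by
      ext i
      have := DFunLike.congr_fun h i.succ
      rw [consP_succ, consP_succ] at this
      rw [Fin.succAbove_right_injective this]
    rw [h1]
  · simp [Fintype.card_perm, Nat.factorial_succ]

theorem sum_consP {n : ℕ} {M : Type*} [AddCommMonoid M] (g : Equiv.Perm (Fin (n + 1)) → M) :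
    ∑ σ, g σ = ∑ v : Fin (n + 1), ∑ τ : Equiv.Perm (Fin n), g (consP v τ) := by
  rw [← Fintype.sum_prod_type']
  exact (Fintype.sum_bijective _ consP_bij (fun p => g (consP p.1 p.2)) g (fun _ => rfl)).symm

theorem sa_val {n : ℕ} (v : Fin (n + 1)) (i : Fin n) :
    ((v.succAbove i : Fin (n + 1)) : ℕ) = if (i : ℕ) < v then (i : ℕ) else i + 1 := by
  unfold Fin.succAbove
  by_cases h : (i : ℕ) < v
  · rw [if_pos h, if_pos (by rw [Fin.lt_def]; simpa using h)]
    simp
  · rw [if_neg h, if_neg (by rw [Fin.lt_def]; simpa using h)]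
    simp

theorem cv_succ {n : ℕ} (v : Fin (n + 1)) (τ : Equiv.Perm (Fin n)) (i : Fin n) :
    ((consP v τ i.succ : Fin (n + 1)) : ℕ) = if (τ i : ℕ) < v then (τ i : ℕ) else τ i + 1 := by
  rw [consP_succ, sa_val]

theorem cv_zero {n : ℕ} (v : Fin (n + 1)) (τ : Equiv.Perm (Fin n)) :
    ((consP v τ 0 : Fin (n + 1)) : ℕ) = v := by
  rw [consP_zero]

/-! ### inversion number -/

/-- the number of inversions -/
def inv {n : ℕ} (π : Equiv.Perm (Fin n)) : ℕ :=
  (univ.filter (fun p : Fin n × Fin n => p.1 < p.2 ∧ π p.2 < π p.1)).card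

theorem inv_eq {n : ℕ} (π : Equiv.Perm (Fin n)) :
    inv π = ∑ i : Fin n, ∑ j : Fin n, if i < j ∧ π j < π i then 1 else 0 := by
  unfold inv
  rw [card_filter, Fintype.sum_prod_type]

theorem card_below {n : ℕ} (τ : Equiv.Perm (Fin n)) (v : Fin (n + 1)) :
    ∑ j : Fin n, (if (τ j : ℕ) < v then 1 else 0) = (v : ℕ) := by
  rw [Equiv.sum_comp τ (fun y : Fin n => if (y : ℕ) < v then 1 else 0)]
  rw [Fin.sum_univ_eq_sum_range (fun y => if y < (v : ℕ) then 1 else 0) n, ← card_filter]
  have : (range n).filter (fun y => y < (v : ℕ)) = range v := by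
    ext y
    rw [mem_filter, mem_range, mem_range]
    have := v.2
    omega
  rw [this, card_range]

theorem inv_consP {n : ℕ} (v : Fin (n + 1)) (τ : Equiv.Perm (Fin n)) :
    inv (consP v τ) = v + inv τ := by
  rw [inv_eq, Fin.sum_univ_succ, inv_eq]
  congr 1
  · rw [Fin.sum_univ_succ]
    have h0 : (if (0 : Fin (n + 1)) < 0 ∧ consP v τ 0 < consP v τ 0 then 1 else 0) = 0 := by
      simp
    rw [h0, zero_add, ← card_below τ v]
    apply sum_congr rfl
    intro j _
    have h1 : ((0 : Fin (n + 1)) < j.succ ∧ consP v τ j.succ < consP v τ 0) ↔ (τ j : ℕ) < v := by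
      rw [Fin.lt_def (a := consP v τ j.succ), cv_succ, cv_zero]
      constructor
      · rintro ⟨_, h⟩
        split_ifs at h <;> omega
      · intro h
        refine ⟨Fin.succ_pos j, ?_⟩
        rw [if_pos h]
        exact h
    simp only [h1]
  · apply sum_congr rfl
    intro i _
    rw [Fin.sum_univ_succ]
    have h0 : (if i.succ < 0 ∧ consP v τ 0 < consP v τ i.succ then 1 else 0) = 0 := by
      rw [if_neg]
      rintro ⟨h, _⟩
      exact absurd h (Fin.not_lt_zero _)
    rw [h0, zero_add]
    apply sum_congr rfl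
    intro j _
    have h1 : (i.succ < j.succ ∧ consP v τ j.succ < consP v τ i.succ) ↔ (i < j ∧ τ j < τ i) := by
      rw [Fin.lt_def (a := consP v τ j.succ), cv_succ, cv_succ, Fin.succ_lt_succ_iff,
        Fin.lt_def (a := τ j)]
      constructor
      · rintro ⟨h, h'⟩
        refine ⟨h, ?_⟩
        split_ifs at h' <;> omega
      · rintro ⟨h, h'⟩
        refine ⟨h, ?_⟩
        split_ifs <;> omega
    simp only [h1]

/-! ### the pattern 1243 -/

/-- `π` contains `1243` -/
def C1243 {n : ℕ} (π : Equiv.Perm (Fin n)) : Prop :=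
  ∃ i j k l : Fin n, i < j ∧ j < k ∧ k < l ∧ π i < π j ∧ π j < π l ∧ π l < π k

/-- `j` is the smaller element of an inversion -/
def IsBot {n : ℕ} (π : Equiv.Perm (Fin n)) (j : Fin n) : Prop := ∃ i, i < j ∧ π j < π i

/-- `i` is the `1` of an occurrence of `132` -/
def IsOne {n : ℕ} (π : Equiv.Perm (Fin n)) (i : Fin n) : Prop :=
  ∃ j k, i < j ∧ j < k ∧ π i < π k ∧ π k < π j

open Classical in
/-- the largest (1-based) smaller value of an inversion, or `0` -/
noncomputable def tst {n : ℕ} (π : Equiv.Perm (Fin n)) : ℕ :=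
  (univ.filter (fun j => IsBot π j)).sup (fun j => (π j : ℕ) + 1)

open Classical in
/-- the largest (1-based) value which is the `1` of an occurrence of `132`, or `0` -/
noncomputable def dst {n : ℕ} (π : Equiv.Perm (Fin n)) : ℕ :=
  (univ.filter (fun i => IsOne π i)).sup (fun j => (π j : ℕ) + 1)

theorem tst_le {n : ℕ} {π : Equiv.Perm (Fin n)} {b : ℕ} :
    tst π ≤ b ↔ ∀ j, IsBot π j → (π j : ℕ) + 1 ≤ b := by
  unfold tst
  rw [Finset.sup_le_iff]
  simp

theorem dst_le {n : ℕ} {π : Equiv.Perm (Fin n)} {b : ℕ} :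
    dst π ≤ b ↔ ∀ j, IsOne π j → (π j : ℕ) + 1 ≤ b := by
  unfold dst
  rw [Finset.sup_le_iff]
  simp

theorem lt_tst {n : ℕ} {π : Equiv.Perm (Fin n)} {b : ℕ} :
    b < tst π ↔ ∃ j, IsBot π j ∧ b < (π j : ℕ) + 1 := by
  rw [← not_le, tst_le]
  push Not
  rfl

theorem lt_dst {n : ℕ} {π : Equiv.Perm (Fin n)} {b : ℕ} :
    b < dst π ↔ ∃ j, IsOne π j ∧ b < (π j : ℕ) + 1 := by
  rw [← not_le, dst_le]
  push Not
  rfl

theorem c1243_consP {n : ℕ} (v : Fin (n + 1)) (τ : Equiv.Perm (Fin n)) :
    ¬ C1243 (consP v τ) ↔ ¬ C1243 τ ∧ dst τ ≤ v := by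
  constructor
  · intro h
    constructor
    · rintro ⟨i, j, k, l, h1, h2, h3, h4, h5, h6⟩
      apply h
      refine ⟨i.succ, j.succ, k.succ, l.succ, Fin.succ_lt_succ_iff.2 h1, Fin.succ_lt_succ_iff.2 h2,
        Fin.succ_lt_succ_iff.2 h3, ?_, ?_, ?_⟩ <;>
      · rw [Fin.lt_def, cv_succ, cv_succ]
        rw [Fin.lt_def] at h4 h5 h6
        split_ifs <;> omega
    · rw [dst_le]
      rintro i ⟨j, k, h1, h2, h3, h4⟩
      by_contra hcon
      apply h
      refine ⟨0, i.succ, j.succ, k.succ, Fin.succ_pos i, Fin.succ_lt_succ_iff.2 h1,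
        Fin.succ_lt_succ_iff.2 h2, ?_, ?_, ?_⟩
      · rw [Fin.lt_def, cv_zero, cv_succ]
        split_ifs <;> omega
      · rw [Fin.lt_def, cv_succ, cv_succ]
        rw [Fin.lt_def] at h3 h4
        split_ifs <;> omega
      · rw [Fin.lt_def, cv_succ, cv_succ]
        rw [Fin.lt_def] at h3 h4
        split_ifs <;> omega
  · rintro ⟨h, hd⟩ ⟨i, j, k, l, h1, h2, h3, h4, h5, h6⟩
    induction j using Fin.cases with
    | zero => exact absurd h1 (Fin.not_lt_zero _)
    | succ j =>
      induction k using Fin.cases with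
      | zero => exact absurd h2 (Fin.not_lt_zero _)
      | succ k =>
        induction l using Fin.cases with
        | zero => exact absurd h3 (Fin.not_lt_zero _)
        | succ l =>
          rw [Fin.succ_lt_succ_iff] at h2 h3
          rw [Fin.lt_def, cv_succ, cv_succ] at h5 h6
          induction i using Fin.cases with
          | zero =>
            rw [Fin.lt_def, cv_zero, cv_succ] at h4
            rw [dst_le] at hd
            have := hd j ⟨k, l, h2, h3, ?_, ?_⟩
            · split_ifs at h4 <;> omega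
            · rw [Fin.lt_def]
              split_ifs at h5 <;> omega
            · rw [Fin.lt_def]
              split_ifs at h6 <;> omega
          | succ i =>
            rw [Fin.succ_lt_succ_iff] at h1
            rw [Fin.lt_def, cv_succ, cv_succ] at h4
            apply h
            refine ⟨i, j, k, l, h1, h2, h3, ?_, ?_, ?_⟩
            · rw [Fin.lt_def]
              split_ifs at h4 <;> omega
            · rw [Fin.lt_def]
              split_ifs at h5 <;> omega
            · rw [Fin.lt_def]
              split_ifs at h6 <;> omega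

theorem isBot_succ {n : ℕ} (v : Fin (n + 1)) (τ : Equiv.Perm (Fin n)) (j : Fin n) :
    IsBot (consP v τ) j.succ ↔ (τ j : ℕ) < v ∨ IsBot τ j := by
  constructor
  · rintro ⟨i, h1, h2⟩
    induction i using Fin.cases with
    | zero =>
      rw [Fin.lt_def, cv_zero, cv_succ] at h2
      left
      split_ifs at h2 <;> omega
    | succ i =>
      rw [Fin.lt_def, cv_succ, cv_succ] at h2
      right
      refine ⟨i, Fin.succ_lt_succ_iff.1 h1, ?_⟩
      rw [Fin.lt_def]
      split_ifs at h2 <;> omega
  · rintro (h | ⟨i, h1, h2⟩)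
    · refine ⟨0, Fin.succ_pos j, ?_⟩
      rw [Fin.lt_def, cv_zero, cv_succ, if_pos h]
      exact h
    · refine ⟨i.succ, Fin.succ_lt_succ_iff.2 h1, ?_⟩
      rw [Fin.lt_def, cv_succ, cv_succ]
      rw [Fin.lt_def] at h2
      split_ifs <;> omega

theorem not_isBot_zero {n : ℕ} (π : Equiv.Perm (Fin (n + 1))) : ¬ IsBot π 0 := by
  rintro ⟨i, h, _⟩
  exact absurd h (Fin.not_lt_zero _)

theorem tst_consP {n : ℕ} (v : Fin (n + 1)) (τ : Equiv.Perm (Fin n)) :
    tst (consP v τ) = if (v : ℕ) < tst τ then tst τ + 1 else v := by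
  apply le_antisymm
  · rw [tst_le]
    intro j hj
    induction j using Fin.cases with
    | zero => exact absurd hj (not_isBot_zero _)
    | succ j =>
      rw [isBot_succ] at hj
      rw [cv_succ]
      have h1 : IsBot τ j → (τ j : ℕ) + 1 ≤ tst τ := (tst_le.1 le_rfl) j
      rcases hj with h | h
      · rw [if_pos h]
        split_ifs <;> omega
      · have := h1 h
        split_ifs <;> omega
  · split_ifs with h
    · rw [lt_tst] at h
      have h' : (v : ℕ) < tst τ := lt_tst.2 h
      have h0 : tst τ - 1 < tst τ := by omega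
      obtain ⟨j, hj, hj2⟩ := lt_tst.1 h0
      have h1 : tst τ < tst (consP v τ) := by
        rw [lt_tst]
        refine ⟨j.succ, (isBot_succ v τ j).2 (Or.inr hj), ?_⟩
        rw [cv_succ, if_neg (by omega)]
        omega
      exact h1
    · rcases Nat.eq_zero_or_pos (v : ℕ) with h0 | h0
      · omega
      · have hv := v.2
        obtain ⟨j, hj⟩ := τ.surjective ⟨(v : ℕ) - 1, by omega⟩
        have hj' : (τ j : ℕ) = v - 1 := by rw [hj]
        have h1 : (v : ℕ) - 1 < tst (consP v τ) := by
          rw [lt_tst]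
          refine ⟨j.succ, (isBot_succ v τ j).2 (Or.inl (by omega)), ?_⟩
          rw [cv_succ, if_pos (by omega)]
          omega
        omega

theorem isOne_succ {n : ℕ} (v : Fin (n + 1)) (τ : Equiv.Perm (Fin n)) (i : Fin n) :
    IsOne (consP v τ) i.succ ↔ IsOne τ i := by
  constructor
  · rintro ⟨j, k, h1, h2, h3, h4⟩
    induction j using Fin.cases with
    | zero => exact absurd h1 (Fin.not_lt_zero _)
    | succ j =>
      induction k using Fin.cases with
      | zero => exact absurd h2 (Fin.not_lt_zero _)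
      | succ k =>
        rw [Fin.lt_def, cv_succ, cv_succ] at h3 h4
        refine ⟨j, k, Fin.succ_lt_succ_iff.1 h1, Fin.succ_lt_succ_iff.1 h2, ?_, ?_⟩
        · rw [Fin.lt_def]
          split_ifs at h3 <;> omega
        · rw [Fin.lt_def]
          split_ifs at h4 <;> omega
  · rintro ⟨j, k, h1, h2, h3, h4⟩
    refine ⟨j.succ, k.succ, Fin.succ_lt_succ_iff.2 h1, Fin.succ_lt_succ_iff.2 h2, ?_, ?_⟩
    · rw [Fin.lt_def, cv_succ, cv_succ]
      rw [Fin.lt_def] at h3
      split_ifs <;> omega
    · rw [Fin.lt_def, cv_succ, cv_succ]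
      rw [Fin.lt_def] at h4
      split_ifs <;> omega

theorem isOne_zero {n : ℕ} (v : Fin (n + 1)) (τ : Equiv.Perm (Fin n)) :
    IsOne (consP v τ) 0 ↔ (v : ℕ) < tst τ := by
  constructor
  · rintro ⟨j, k, h1, h2, h3, h4⟩
    induction j using Fin.cases with
    | zero => exact absurd h1 (lt_irrefl _)
    | succ j =>
      induction k using Fin.cases with
      | zero => exact absurd h2 (Fin.not_lt_zero _)
      | succ k =>
        rw [Fin.lt_def, cv_zero, cv_succ] at h3
        rw [Fin.lt_def, cv_succ, cv_succ] at h4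
        rw [lt_tst]
        refine ⟨k, ⟨j, Fin.succ_lt_succ_iff.1 h2, ?_⟩, ?_⟩
        · rw [Fin.lt_def]
          split_ifs at h4 <;> omega
        · split_ifs at h3 <;> omega
  · intro h
    rw [lt_tst] at h
    obtain ⟨k, ⟨j, h1, h2⟩, h3⟩ := h
    refine ⟨j.succ, k.succ, Fin.succ_pos _, Fin.succ_lt_succ_iff.2 h1, ?_, ?_⟩
    · rw [Fin.lt_def, cv_zero, cv_succ]
      split_ifs <;> omega
    · rw [Fin.lt_def, cv_succ, cv_succ]
      rw [Fin.lt_def] at h2
      split_ifs <;> omega

theorem dst_consP {n : ℕ} (v : Fin (n + 1)) (τ : Equiv.Perm (Fin n)) (hd : dst τ ≤ v) :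
    dst (consP v τ) = if (v : ℕ) < tst τ then (v : ℕ) + 1 else dst τ := by
  apply le_antisymm
  · rw [dst_le]
    intro j hj
    induction j using Fin.cases with
    | zero =>
      rw [isOne_zero] at hj
      rw [if_pos hj, cv_zero]
    | succ j =>
      rw [isOne_succ] at hj
      have h1 := (dst_le.1 (le_refl (dst τ))) j hj
      rw [cv_succ, if_pos (by omega)]
      split_ifs <;> omega
  · split_ifs with h
    · have h1 : (v : ℕ) < dst (consP v τ) := by
        rw [lt_dst]
        refine ⟨0, (isOne_zero v τ).2 h, ?_⟩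
        rw [cv_zero]
        omega
      exact h1
    · rcases Nat.eq_zero_or_pos (dst τ) with h0 | h0
      · omega
      · have h1 : dst τ - 1 < dst τ := by omega
        obtain ⟨j, hj, hj2⟩ := lt_dst.1 h1
        have h3 := (dst_le.1 (le_refl (dst τ))) j hj
        have h2 : dst τ - 1 < dst (consP v τ) := by
          rw [lt_dst]
          refine ⟨j.succ, (isOne_succ v τ j).2 hj, ?_⟩
          rw [cv_succ, if_pos (by omega)]
          omega
        omega

end Pool.Agent.N349.LS
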