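import Pool.Agent.N349.LS1

/-!
# Limit sequence of the pattern 1243: the recursion and its stabilisation
-/

set_option autoImplicit false

namespace Pool.Agent.N349.LS

open Finset

open Classical in
/-- number of 1243-avoiders of size `n` with `k` inversions, `dst = d` and `tst = t` -/
noncomputable def A (n k d t : ℕ) : ℕ :=
  (univ.filter (fun π : Equiv.Perm (Fin n) =>
    ¬ C1243 π ∧ inv π = k ∧ dst π = d ∧ tst π = t)).card

section

open Classical

theorem A_eq (n k d t : ℕ) : A n k d t = ∑ π : Equiv.Perm (Fin n),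
    if ¬ C1243 π ∧ inv π = k ∧ dst π = d ∧ tst π = t then 1 else 0 := by
  unfold A
  rw [card_filter]

theorem sumA_t (n k d m : ℕ) : ∑ j ∈ range m, A n k d j = ∑ π : Equiv.Perm (Fin n),
    if ¬ C1243 π ∧ inv π = k ∧ dst π = d ∧ tst π < m then 1 else 0 := by
  simp only [A_eq]
  rw [sum_comm]
  apply sum_congr rfl
  intro π _
  by_cases h : ¬ C1243 π ∧ inv π = k ∧ dst π = d
  · have h1 : ∀ j, (¬ C1243 π ∧ inv π = k ∧ dst π = d ∧ tst π = j) ↔ tst π = j := by
      intro j
      tauto
    have h2 : (¬ C1243 π ∧ inv π = k ∧ dst π = d ∧ tst π < m) ↔ tst π < m := by tauto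
    simp only [h1, h2]
    rw [sum_ite_eq]
    simp only [mem_range]
  · have h1 : ∀ j, ¬ (¬ C1243 π ∧ inv π = k ∧ dst π = d ∧ tst π = j) := by
      intro j
      tauto
    have h2 : ¬ (¬ C1243 π ∧ inv π = k ∧ dst π = d ∧ tst π < m) := by tauto
    simp only [h1, h2, if_false, sum_const_zero]

theorem sumA_d (n k t m : ℕ) : ∑ j ∈ range m, A n k j t = ∑ π : Equiv.Perm (Fin n),
    if ¬ C1243 π ∧ inv π = k ∧ dst π < m ∧ tst π = t then 1 else 0 := by
  simp only [A_eq]
  rw [sum_comm]
  apply sum_congr rfl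
  intro π _
  by_cases h : ¬ C1243 π ∧ inv π = k ∧ tst π = t
  · have h1 : ∀ j, (¬ C1243 π ∧ inv π = k ∧ dst π = j ∧ tst π = t) ↔ dst π = j := by
      intro j
      tauto
    have h2 : (¬ C1243 π ∧ inv π = k ∧ dst π < m ∧ tst π = t) ↔ dst π < m := by tauto
    simp only [h1, h2]
    rw [sum_ite_eq]
    simp only [mem_range]
  · have h1 : ∀ j, ¬ (¬ C1243 π ∧ inv π = k ∧ dst π = j ∧ tst π = t) := by
      intro j
      tauto
    have h2 : ¬ (¬ C1243 π ∧ inv π = k ∧ dst π < m ∧ tst π = t) := by tauto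
    simp only [h1, h2, if_false, sum_const_zero]

/-- the condition on `(v, τ)` for `consP v τ` to have the statistics `(k, d, t)` -/
theorem cond_consP {n : ℕ} (v : Fin (n + 1)) (τ : Equiv.Perm (Fin n)) (k d t : ℕ) :
    (¬ C1243 (consP v τ) ∧ inv (consP v τ) = k ∧ dst (consP v τ) = d ∧ tst (consP v τ) = t) ↔
    (¬ C1243 τ ∧ dst τ ≤ v ∧ (v : ℕ) + inv τ = k ∧
      (if (v : ℕ) < tst τ then (v : ℕ) + 1 else dst τ) = d ∧
      (if (v : ℕ) < tst τ then tst τ + 1 else (v : ℕ)) = t) := by
  rw [c1243_consP, inv_consP, tst_consP]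
  constructor
  · rintro ⟨⟨h1, h2⟩, h3, h4, h5⟩
    rw [dst_consP v τ h2] at h4
    exact ⟨h1, h2, h3, h4, h5⟩
  · rintro ⟨h1, h2, h3, h4, h5⟩
    rw [dst_consP v τ h2]
    exact ⟨⟨h1, h2⟩, h3, h4, h5⟩

theorem A_zero_zero (k d t : ℕ) : A 0 k d t = if k = 0 ∧ d = 0 ∧ t = 0 then 1 else 0 := by
  rw [A_eq]
  have h0 : ∀ π : Equiv.Perm (Fin 0), (¬ C1243 π ∧ inv π = k ∧ dst π = d ∧ tst π = t) ↔
      (k = 0 ∧ d = 0 ∧ t = 0) := by
    intro π
    have h1 : ¬ C1243 π := by
      rintro ⟨i, _⟩
      exact i.elim0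
    have h2 : inv π = 0 := by
      rw [inv_eq]
      simp
    have h3 : dst π = 0 := by
      apply Nat.le_zero.1
      rw [dst_le]
      intro j
      exact j.elim0
    have h4 : tst π = 0 := by
      apply Nat.le_zero.1
      rw [tst_le]
      intro j
      exact j.elim0
    rw [h2, h3, h4]
    constructor
    · rintro ⟨_, a, b, c⟩
      exact ⟨a.symm, b.symm, c.symm⟩
    · rintro ⟨a, b, c⟩
      exact ⟨h1, a.symm, b.symm, c.symm⟩
  simp only [h0]
  rw [Fintype.sum_unique]

theorem A_tzero (n : ℕ) : ∀ k d : ℕ, A n k d 0 = if k = 0 ∧ d = 0 then 1 else 0 := by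
  induction n with
  | zero =>
    intro k d
    rw [A_zero_zero]
    simp
  | succ n ih =>
    intro k d
    rw [A_eq, sum_consP, Fin.sum_univ_succ]
    have h1 : ∑ i : Fin n, ∑ τ : Equiv.Perm (Fin n), (if ¬ C1243 (consP i.succ τ) ∧
        inv (consP i.succ τ) = k ∧ dst (consP i.succ τ) = d ∧ tst (consP i.succ τ) = 0
        then 1 else 0) = 0 := by
      apply sum_eq_zero
      intro i _
      apply sum_eq_zero
      intro τ _
      rw [if_neg]
      rw [cond_consP]
      rintro ⟨-, -, -, -, h⟩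
      rw [Fin.val_succ] at h
      split_ifs at h
    rw [h1, add_zero]
    have h2 : ∀ τ : Equiv.Perm (Fin n), (¬ C1243 (consP 0 τ) ∧ inv (consP 0 τ) = k ∧
        dst (consP 0 τ) = d ∧ tst (consP 0 τ) = 0) ↔
        (¬ C1243 τ ∧ inv τ = k ∧ dst τ = d ∧ tst τ = 0) ∧ d = 0 := by
      intro τ
      rw [cond_consP]
      simp only [Fin.val_zero]
      constructor
      · rintro ⟨a, b, c, e, f⟩
        split_ifs at e f with h
        refine ⟨⟨a, by omega, e, by omega⟩, by omega⟩
      · rintro ⟨⟨a, b, c, e⟩, f⟩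
        rw [if_neg (by omega), if_neg (by omega)]
        refine ⟨a, by omega, by omega, c, rfl⟩
    simp only [h2]
    by_cases hd : d = 0
    · simp only [hd, and_true]
      rw [← A_eq, ih]
      simp
    · simp [hd]

theorem A_succ (n k d s : ℕ) (hk : k ≤ n) : A (n + 1) k d (s + 1) =
    (if d ≤ s + 1 ∧ s + 1 ≤ k then ∑ j ∈ range (s + 2), A n (k - (s + 1)) d j else 0) +
    (if 1 ≤ d ∧ d ≤ s ∧ d ≤ k + 1 then ∑ i ∈ range d, A n (k - (d - 1)) i s else 0) := by
  rw [A_eq, sum_consP]
  simp only [cond_consP]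
  have key : ∀ (v : Fin (n + 1)) (τ : Equiv.Perm (Fin n)),
      (if ¬ C1243 τ ∧ dst τ ≤ v ∧ (v : ℕ) + inv τ = k ∧
      (if (v : ℕ) < tst τ then (v : ℕ) + 1 else dst τ) = d ∧
      (if (v : ℕ) < tst τ then tst τ + 1 else (v : ℕ)) = s + 1 then 1 else 0) =
      (if (v : ℕ) = s + 1 then (if d ≤ s + 1 ∧ s + 1 ≤ k then
        (if ¬ C1243 τ ∧ inv τ = k - (s + 1) ∧ dst τ = d ∧ tst τ < s + 2 then 1 else 0) else 0)
        else 0) +
      (if (v : ℕ) = d - 1 then (if 1 ≤ d ∧ d ≤ s ∧ d ≤ k + 1 then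
        (if ¬ C1243 τ ∧ inv τ = k - (d - 1) ∧ dst τ < d ∧ tst τ = s then 1 else 0) else 0)
        else 0) := by
    intro v τ
    by_cases hC : C1243 τ
    · simp [hC]
    · simp only [hC, not_false_eq_true, true_and]
      split_ifs <;> omega
  simp only [key, sum_add_distrib]
  congr 1
  · have h1 : ∀ v : Fin (n + 1), (∑ τ : Equiv.Perm (Fin n), if (v : ℕ) = s + 1 then
        (if d ≤ s + 1 ∧ s + 1 ≤ k then
        (if ¬ C1243 τ ∧ inv τ = k - (s + 1) ∧ dst τ = d ∧ tst τ < s + 2 then 1 else 0) else 0)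
        else 0) = if (v : ℕ) = s + 1 then (if d ≤ s + 1 ∧ s + 1 ≤ k then
          ∑ j ∈ range (s + 2), A n (k - (s + 1)) d j else 0) else 0 := by
      intro v
      rw [sumA_t]
      split_ifs <;> simp
    simp only [h1]
    rw [Fin.sum_univ_eq_sum_range (fun v => if v = s + 1 then (if d ≤ s + 1 ∧ s + 1 ≤ k then
          ∑ j ∈ range (s + 2), A n (k - (s + 1)) d j else 0) else 0) (n + 1)]
    rw [sum_ite_eq']
    split_ifs with h2 h3 h3
    · rfl
    · rfl
    · exfalso
      rw [mem_range] at h2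
      omega
    · rfl
  · have h1 : ∀ v : Fin (n + 1), (∑ τ : Equiv.Perm (Fin n), if (v : ℕ) = d - 1 then
        (if 1 ≤ d ∧ d ≤ s ∧ d ≤ k + 1 then
        (if ¬ C1243 τ ∧ inv τ = k - (d - 1) ∧ dst τ < d ∧ tst τ = s then 1 else 0) else 0)
        else 0) = if (v : ℕ) = d - 1 then (if 1 ≤ d ∧ d ≤ s ∧ d ≤ k + 1 then
          ∑ i ∈ range d, A n (k - (d - 1)) i s else 0) else 0 := by
      intro v
      rw [sumA_d]
      split_ifs <;> simp
    simp only [h1]
    rw [Fin.sum_univ_eq_sum_range (fun v => if v = d - 1 then (if 1 ≤ d ∧ d ≤ s ∧ d ≤ k + 1 then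
          ∑ i ∈ range d, A n (k - (d - 1)) i s else 0) else 0) (n + 1)]
    rw [sum_ite_eq']
    split_ifs with h2 h3 h3
    · rfl
    · rfl
    · exfalso
      rw [mem_range] at h2
      omega
    · rfl

end

/-- The numbers of the recursion. -/
def c : ℕ → ℕ → ℕ → ℕ
  | k, d, 0 => if k = 0 ∧ d = 0 then 1 else 0
  | k, d, s + 1 =>
    (if _h : d ≤ s + 1 ∧ s + 1 ≤ k then ∑ j ∈ range (s + 2), c (k - (s + 1)) d j else 0) +
    (if 1 ≤ d ∧ d ≤ s ∧ d ≤ k + 1 then ∑ i ∈ range d, c (k - (d - 1)) i s else 0)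
  termination_by k _ t => (k, t)
  decreasing_by
    · exact Prod.Lex.left _ _ (by omega)
    · rcases Nat.eq_or_lt_of_le (Nat.sub_le k (d - 1)) with h | h
      · rw [h]
        exact Prod.Lex.right _ (Nat.lt_succ_self _)
      · exact Prod.Lex.left _ _ h

theorem c_zero (k d : ℕ) : c k d 0 = if k = 0 ∧ d = 0 then 1 else 0 := by
  rw [c]

theorem c_succ (k d s : ℕ) : c k d (s + 1) =
    (if d ≤ s + 1 ∧ s + 1 ≤ k then ∑ j ∈ range (s + 2), c (k - (s + 1)) d j else 0) +
    (if 1 ≤ d ∧ d ≤ s ∧ d ≤ k + 1 then ∑ i ∈ range d, c (k - (d - 1)) i s else 0) := by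
  rw [c]
  rfl

/-- Stabilisation. -/
theorem stab (n : ℕ) : (∀ k, k + 1 ≤ n → ∀ t, A n k 0 t = c k 0 t) ∧
    (∀ k, k + 2 ≤ n → ∀ d t, A n k d t = c k d t) := by
  induction n with
  | zero => exact ⟨fun k h => by omega, fun k h => by omega⟩
  | succ n ih =>
    obtain ⟨ih1, ih2⟩ := ih
    constructor
    · intro k hk t
      rcases t with _ | s
      · rw [A_tzero, c_zero]
      · rw [A_succ n k 0 s (by omega), c_succ]
        congr 1
        split_ifs with h1
        · apply sum_congr rfl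
          intro j _
          exact ih1 _ (by omega) j
        · rfl
    · intro k hk d t
      rcases t with _ | s
      · rw [A_tzero, c_zero]
      · rw [A_succ n k d s (by omega), c_succ]
        congr 1
        · split_ifs with h1
          · apply sum_congr rfl
            intro j _
            exact ih2 _ (by omega) d j
          · rfl
        · split_ifs with h1
          · apply sum_congr rfl
            intro i hi
            rw [mem_range] at hi
            rcases Nat.lt_or_ge 1 d with h2 | h2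
            · exact ih2 _ (by omega) i s
            · have h3 : i = 0 := by omega
              have h4 : k - (d - 1) = k := by omega
              rw [h3, h4]
              exact ih1 k (by omega) s
          · rfl

/-- support of `c` -/
theorem c_supp : ∀ N k d t : ℕ, k + t ≤ N → c k d t ≠ 0 → t ≤ k + 1 ∧ d ≤ t ∧ (d = 0 → t ≤ k) := by
  intro N
  induction N with
  | zero =>
    intro k d t h hc
    have ht : t = 0 := by omega
    have hk : k = 0 := by omega
    subst ht hk
    rw [c_zero] at hc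
    split_ifs at hc with h1
    · omega
    · exact absurd rfl hc
  | succ N ih =>
    intro k d t h hc
    rcases t with _ | s
    · rw [c_zero] at hc
      split_ifs at hc with h1
      · omega
      · exact absurd rfl hc
    · rw [c_succ] at hc
      by_cases h1 : d ≤ s + 1 ∧ s + 1 ≤ k
      · exact ⟨by omega, by omega, fun _ => by omega⟩
      · rw [if_neg h1, zero_add] at hc
        split_ifs at hc with h2
        · obtain ⟨i, hi, hi2⟩ := exists_ne_zero_of_sum_ne_zero hc
          rw [mem_range] at hi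
          obtain ⟨e1, e2, e3⟩ := ih _ _ _ (by omega) hi2
          refine ⟨?_, by omega, by omega⟩
          rcases Nat.lt_or_ge 1 d with h3 | h3
          · omega
          · have := e3 (by omega)
            omega
        · exact absurd rfl hc

theorem c_eq_zero {k d t : ℕ} (h : k + 1 < t ∨ t < d) : c k d t = 0 := by
  by_contra hc
  obtain ⟨h1, h2, _⟩ := c_supp (k + t) k d t le_rfl hc
  omega

open Classical in
/-- the number of 1243-avoiders of size `n` with `k` inversions -/
noncomputable def av (n k : ℕ) : ℕ :=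
  (univ.filter (fun π : Equiv.Perm (Fin n) => ¬ C1243 π ∧ inv π = k)).card

/-- the limit sequence -/
def a (k : ℕ) : ℕ := ∑ t ∈ range (k + 2), ∑ d ∈ range (t + 1), c k d t

theorem av_eq_sum (n k : ℕ) : av n k = ∑ t ∈ range (n + 1), ∑ d ∈ range (n + 1), A n k d t := by
  classical
  simp only [sumA_d]
  rw [sum_comm]
  unfold av
  rw [card_filter]
  apply sum_congr rfl
  intro π _
  have h1 : dst π < n + 1 := by
    rw [Nat.lt_succ_iff, dst_le]
    intro j _
    exact (π j).2
  have h2 : tst π < n + 1 := by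
    rw [Nat.lt_succ_iff, tst_le]
    intro j _
    exact (π j).2
  by_cases h : ¬ C1243 π ∧ inv π = k
  · rw [if_pos h]
    have h3 : ∀ j, (¬ C1243 π ∧ inv π = k ∧ dst π < n + 1 ∧ tst π = j) ↔ tst π = j := by
      intro j
      tauto
    simp only [h3]
    rw [sum_ite_eq, if_pos (mem_range.2 h2)]
  · rw [if_neg h]
    symm
    apply sum_eq_zero
    intro j _
    rw [if_neg]
    tauto

/-- The limit is attained for `n ≥ k + 2`. -/
theorem av_eq (n k : ℕ) (h : k + 2 ≤ n) : av n k = a k := by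
  rw [av_eq_sum]
  have h1 : ∀ t d, A n k d t = c k d t := fun t d => (stab n).2 k h d t
  simp only [h1]
  unfold a
  have h2 : range (k + 2) ⊆ range (n + 1) := range_subset_range.2 (by omega)
  rw [← sum_subset h2]
  · apply sum_congr rfl
    intro t ht
    rw [mem_range] at ht
    symm
    apply sum_subset
    · exact range_subset_range.2 (by omega)
    · intro d _ hd
      rw [mem_range] at hd
      exact c_eq_zero (by omega)
  · intro t _ ht
    rw [mem_range] at ht
    apply sum_eq_zero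
    intro d _
    exact c_eq_zero (by omega)

end Pool.Agent.N349.LS
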