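import Pool.Agent.N349.LS2

/-!
# Limit sequence of the pattern 1243: the functional equation
-/

set_option autoImplicit false

namespace Pool.Agent.N349.LS

open Finset PowerSeries

/-- the generating function of `c k d t` over `k` -/
noncomputable def f (d t : ℕ) : ℤ⟦X⟧ := PowerSeries.mk (fun k => (c k d t : ℤ))

theorem f_zero (d : ℕ) : f d 0 = if d = 0 then 1 else 0 := by
  ext k
  unfold f
  rw [coeff_mk, c_zero]
  by_cases hd : d = 0
  · rw [if_pos hd, coeff_one]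
    by_cases hk : k = 0 <;> simp [hk, hd]
  · rw [if_neg hd, if_neg (fun h => hd h.2)]
    simp

theorem f_succ (d s : ℕ) : f d (s + 1) =
    (if d ≤ s + 1 then X ^ (s + 1) * ∑ j ∈ range (s + 2), f d j else 0) +
    (if 1 ≤ d ∧ d ≤ s then X ^ (d - 1) * ∑ i ∈ range d, f i s else 0) := by
  ext k
  unfold f
  rw [coeff_mk, c_succ, map_add]
  push_cast
  congr 1
  · by_cases h1 : d ≤ s + 1
    · rw [if_pos h1, coeff_X_pow_mul']
      by_cases h2 : s + 1 ≤ k
      · rw [if_pos ⟨h1, h2⟩, if_pos h2, map_sum]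
        simp only [coeff_mk]
      · rw [if_neg (fun h => h2 h.2), if_neg h2]
    · rw [if_neg h1, if_neg (fun h => h1 h.1)]
      simp
  · by_cases h1 : 1 ≤ d ∧ d ≤ s
    · rw [if_pos h1, coeff_X_pow_mul']
      by_cases h2 : d - 1 ≤ k
      · rw [if_pos ⟨h1.1, h1.2, by omega⟩, if_pos h2, map_sum]
        simp only [coeff_mk]
      · rw [if_neg (fun h => h2 (by omega)), if_neg h2]
    · rw [if_neg h1, if_neg (fun h => h1 ⟨h.1, h.2.1⟩)]
      simp

theorem f_gt {d t : ℕ} (h : t < d) : f d t = 0 := by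
  ext k
  unfold f
  rw [coeff_mk, c_eq_zero (Or.inr h)]
  simp

/-- the polynomial `∑_d f d t Y^d` -/
noncomputable def h (t : ℕ) (Y : ℤ⟦X⟧) : ℤ⟦X⟧ := ∑ d ∈ range (t + 1), f d t * Y ^ d

theorem h_zero (Y : ℤ⟦X⟧) : h 0 Y = 1 := by
  unfold h
  rw [sum_range_one, f_zero, if_pos rfl]
  simp

/-- partial sums of `h` -/
noncomputable def Hs (t : ℕ) (Y : ℤ⟦X⟧) : ℤ⟦X⟧ := ∑ j ∈ range (t + 1), h j Y

theorem h_ext {j T : ℕ} (hj : j ≤ T) (Y : ℤ⟦X⟧) : h j Y = ∑ d ∈ range (T + 1), f d j * Y ^ d := by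
  unfold h
  apply sum_subset (range_subset_range.2 (by omega))
  intro d _ hd
  rw [mem_range] at hd
  rw [f_gt (by omega), zero_mul]

/-- telescoping -/
theorem tele (v : ℤ⟦X⟧) (u : ℕ → ℤ⟦X⟧) (s : ℕ) :
    (1 - v) * ∑ e ∈ range s, v ^ e * ∑ i ∈ range (e + 1), u i =
      ∑ e ∈ range s, u e * v ^ e - v ^ s * ∑ i ∈ range s, u i := by
  induction s with
  | zero => simp
  | succ s ih =>
    rw [sum_range_succ, mul_add, ih, sum_range_succ (fun e => u e * v ^ e),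
      sum_range_succ u s, pow_succ]
    ring

theorem h_succ (T : ℕ) (Y : ℤ⟦X⟧) : (1 - X * Y) * h (T + 1) Y =
    (1 - X * Y) * (X ^ (T + 1) * Hs (T + 1) Y) +
      Y * (h T (X * Y) - (X * Y) ^ T * h T 1) := by
  have e1 : h (T + 1) Y = X ^ (T + 1) * Hs (T + 1) Y +
      Y * ∑ e ∈ range T, (X * Y) ^ e * ∑ i ∈ range (e + 1), f i T := by
    unfold h
    rw [show T + 1 + 1 = T + 2 by rfl]
    have e2 : ∀ d ∈ range (T + 2), f d (T + 1) * Y ^ d =
        X ^ (T + 1) * ∑ j ∈ range (T + 2), f d j * Y ^ d +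
        (if 1 ≤ d ∧ d ≤ T then X ^ (d - 1) * ∑ i ∈ range d, f i T else 0) * Y ^ d := by
      intro d hd
      rw [mem_range] at hd
      rw [f_succ, if_pos (by omega), add_mul, ← sum_mul]
      ring
    rw [sum_congr rfl e2, sum_add_distrib]
    congr 1
    · unfold Hs
      rw [← mul_sum, sum_comm]
      congr 1
      apply sum_congr rfl
      intro j hj
      rw [mem_range] at hj
      rw [h_ext (T := T + 1) (by omega)]
    · rw [sum_range_succ, if_neg (by omega), zero_mul, add_zero, sum_range_succ']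
      rw [if_neg (by omega), zero_mul, add_zero, mul_sum]
      apply sum_congr rfl
      intro e he
      rw [mem_range] at he
      rw [if_pos (by omega), Nat.add_sub_cancel, mul_pow, pow_succ]
      ring
  have e3 := tele (X * Y) (fun i => f i T) T
  have e4 : h T (X * Y) = ∑ e ∈ range T, f e T * (X * Y) ^ e + f T T * (X * Y) ^ T := by
    unfold h
    rw [sum_range_succ]
  have e5 : h T 1 = ∑ e ∈ range T, f e T + f T T := by
    unfold h
    rw [sum_range_succ]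
    simp
  rw [e1, mul_add, e4, e5]
  linear_combination Y * e3

/-- finite sums -/
noncomputable def FT (T : ℕ) (Y Z : ℤ⟦X⟧) : ℤ⟦X⟧ := ∑ t ∈ range T, h t Y * Z ^ t

theorem FT_eq (T : ℕ) (Y Z : ℤ⟦X⟧) :
    (1 - X * Z) * (1 - X * Y) * FT (T + 1) Y Z =
      (1 - X * Y) * (FT (T + 1) Y (X * Z) - (X * Z) ^ (T + 1) * Hs T Y) +
      (1 - X * Z) * (Y * Z) * (FT T (X * Y) Z - FT T 1 (X * Y * Z)) := by
  induction T with
  | zero =>
    unfold FT Hs
    simp only [zero_add, sum_range_one, range_zero, sum_empty, h_zero]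
    ring
  | succ T ih =>
    have e1 : FT (T + 1 + 1) Y Z = FT (T + 1) Y Z + h (T + 1) Y * Z ^ (T + 1) := by
      unfold FT
      rw [sum_range_succ]
    have e2 : FT (T + 1 + 1) Y (X * Z) =
        FT (T + 1) Y (X * Z) + h (T + 1) Y * (X * Z) ^ (T + 1) := by
      unfold FT
      rw [sum_range_succ]
    have e3 : FT (T + 1) (X * Y) Z = FT T (X * Y) Z + h T (X * Y) * Z ^ T := by
      unfold FT
      rw [sum_range_succ]
    have e4 : FT (T + 1) 1 (X * Y * Z) = FT T 1 (X * Y * Z) + h T 1 * (X * Y * Z) ^ T := by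
      unfold FT
      rw [sum_range_succ]
    have e5 : Hs (T + 1) Y = Hs T Y + h (T + 1) Y := by
      unfold Hs
      rw [sum_range_succ]
    have e6 := h_succ T Y
    rw [e1, e2, e3, e4, e5]
    rw [e5] at e6
    have e7 : (X * Y * Z) ^ T = (X * Y) ^ T * Z ^ T := by rw [mul_pow]
    have e8 : (X * Z) ^ (T + 1) = X ^ (T + 1) * Z ^ (T + 1) := by rw [mul_pow]
    have e9 : (X * Z) ^ (T + 1 + 1) = (X * Z) * (X ^ (T + 1) * Z ^ (T + 1)) := by
      rw [pow_succ, mul_pow]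
      ring
    rw [e7, e8, e9]
    rw [e8] at ih
    have e10 : Z ^ (T + 1) = Z * Z ^ T := by rw [pow_succ]; ring
    linear_combination ih + (1 - X * Z) * Z ^ (T + 1) * e6 +
      (1 - X * Z) * Y * (h T (X * Y) - (X * Y) ^ T * h T 1) * e10

theorem f_dvd (d t : ℕ) (n : ℕ) (ht : n + 2 ≤ t) : X ^ (n + 1) ∣ f d t := by
  rw [X_pow_dvd_iff]
  intro m hm
  unfold f
  rw [coeff_mk, c_eq_zero (Or.inl (by omega))]
  simp

theorem h_dvd (t n : ℕ) (ht : n + 2 ≤ t) (Y : ℤ⟦X⟧) : X ^ (n + 1) ∣ h t Y := by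
  unfold h
  apply dvd_sum
  intro d _
  exact Dvd.dvd.mul_right (f_dvd d t n ht) _

theorem FT_dvd (n T T' : ℕ) (h1 : n + 2 ≤ T) (h2 : T ≤ T') (Y Z : ℤ⟦X⟧) :
    X ^ (n + 1) ∣ FT T' Y Z - FT T Y Z := by
  obtain ⟨e, rfl⟩ := Nat.exists_eq_add_of_le h2
  unfold FT
  rw [sum_range_add, add_sub_cancel_left]
  apply dvd_sum
  intro t _
  exact Dvd.dvd.mul_right (h_dvd _ n (by omega) Y) _

/-- The two-variable generating function `∑ c k d t X^k Y^d Z^t`, for power series `Y`, `Z`. -/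
noncomputable def F (Y Z : ℤ⟦X⟧) : ℤ⟦X⟧ :=
  PowerSeries.mk (fun n => coeff n (FT (n + 2) Y Z))

theorem F_dvd (n T : ℕ) (hT : n + 2 ≤ T) (Y Z : ℤ⟦X⟧) : X ^ (n + 1) ∣ F Y Z - FT T Y Z := by
  rw [X_pow_dvd_iff]
  intro m hm
  unfold F
  rw [map_sub, coeff_mk]
  have h1 := (X_pow_dvd_iff.1 (FT_dvd m (m + 2) T le_rfl (by omega) Y Z)) m (by omega)
  rw [map_sub] at h1
  linarith

theorem dvd_eq_zero (E : ℤ⟦X⟧) (h : ∀ n : ℕ, X ^ (n + 1) ∣ E) : E = 0 := by
  ext n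
  rw [(X_pow_dvd_iff.1 (h n)) n (by omega)]
  simp

/-- The functional equation. -/
theorem F_eq (Y Z : ℤ⟦X⟧) :
    (1 - X * Y) * (1 - X * Z) * F Y Z =
      Y * Z * (1 - X * Z) * (F (X * Y) Z - F 1 (X * Y * Z)) + (1 - X * Y) * F Y (X * Z) := by
  rw [← sub_eq_zero]
  apply dvd_eq_zero
  intro n
  have e0 := FT_eq (n + 2) Y Z
  obtain ⟨a1, h1⟩ := F_dvd n (n + 3) (by omega) Y Z
  obtain ⟨a2, h2⟩ := F_dvd n (n + 3) (by omega) Y (X * Z)
  obtain ⟨a3, h3⟩ := F_dvd n (n + 2) (by omega) (X * Y) Z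
  obtain ⟨a4, h4⟩ := F_dvd n (n + 2) (by omega) 1 (X * Y * Z)
  rw [sub_eq_iff_eq_add] at h1 h2 h3 h4
  rw [h1, h2, h3, h4]
  have e1 : (X * Z) ^ (n + 2 + 1) = X ^ (n + 1) * (X ^ 2 * Z ^ (n + 3)) := by
    rw [mul_pow]
    ring
  rw [e1] at e0
  refine ⟨(1 - X * Y) * (1 - X * Z) * a1 - Y * Z * (1 - X * Z) * (a3 - a4) -
    (1 - X * Y) * a2 - (1 - X * Y) * (X ^ 2 * Z ^ (n + 3)) * Hs (n + 2) Y, ?_⟩
  have e2 : n + 2 + 1 = n + 3 := rfl
  rw [e2] at e0
  linear_combination e0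

theorem F_zero (Y : ℤ⟦X⟧) : F Y 0 = 1 := by
  ext n
  unfold F FT
  rw [coeff_mk, sum_range_succ']
  simp [h_zero]

/-- The generating function of the limit sequence. -/
theorem F_one : F 1 1 = PowerSeries.mk (fun k => (a k : ℤ)) := by
  ext n
  unfold F FT a h f
  rw [coeff_mk, coeff_mk]
  push_cast
  simp only [one_pow, mul_one, map_sum, coeff_mk]

end Pool.Agent.N349.LS
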