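import Pool.Agent.N349.LS3

/-!
# Limit sequence of the pattern 1243: a triangular system with one index
-/

set_option autoImplicit false

namespace Pool.Agent.N349.LS

open Finset PowerSeries

/-- `(1 - X^(i+1))⁻¹` -/
noncomputable def gi (i : ℕ) : ℤ⟦X⟧ := invOfUnit (1 - X ^ (i + 1)) 1

theorem gi_mul (i : ℕ) : (1 - X ^ (i + 1)) * gi i = 1 := by
  unfold gi
  apply mul_invOfUnit
  simp

/-- `(X; X)_n` -/
noncomputable def qp (n : ℕ) : ℤ⟦X⟧ := ∏ i ∈ range n, (1 - X ^ (i + 1))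

/-- `1 / (X; X)_n` -/
noncomputable def iqp (n : ℕ) : ℤ⟦X⟧ := ∏ i ∈ range n, gi i

theorem qp_iqp (n : ℕ) : qp n * iqp n = 1 := by
  unfold qp iqp
  rw [← prod_mul_distrib]
  apply prod_eq_one
  intro i _
  exact gi_mul i

/-- `(XY; X)_n` -/
noncomputable def qy (n : ℕ) (Y : ℤ⟦X⟧) : ℤ⟦X⟧ := ∏ i ∈ range n, (1 - X ^ (i + 1) * Y)

/-- the coefficients of `(XZ; X)_∞` -/
noncomputable def e (i : ℕ) : ℤ⟦X⟧ := (-1) ^ i * X ^ (i * (i + 1) / 2) * iqp i

theorem e_zero : e 0 = 1 := by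
  unfold e iqp
  simp

theorem e_succ (i : ℕ) : (1 - X ^ (i + 1)) * e (i + 1) = - (X ^ (i + 1) * e i) := by
  have h1 : (i + 1) * (i + 1 + 1) / 2 = i * (i + 1) / 2 + (i + 1) := by
    rw [show (i + 1) * (i + 1 + 1) = i * (i + 1) + (i + 1) * 2 by ring]
    rw [Nat.add_mul_div_right _ _ (by norm_num)]
  have h2 : iqp (i + 1) = iqp i * gi i := by
    unfold iqp
    rw [prod_range_succ]
  unfold e
  rw [h1, h2, pow_add, pow_succ]
  have h3 := gi_mul i
  linear_combination (-(-1) ^ i * (X ^ (i * (i + 1) / 2) * X ^ (i + 1)) * iqp i) * h3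

/-- key identity for convolutions with `e` -/
theorem conv_key (u : ℕ → ℤ⟦X⟧) (n : ℕ) :
    ∑ i ∈ range (n + 1), X ^ i * e i * ((1 - X ^ (n - i)) * u (n - i) -
      (if i < n then X * u (n - 1 - i) else 0)) =
    (1 - X ^ n) * ∑ i ∈ range (n + 1), e i * u (n - i) := by
  have h1 : ∑ i ∈ range (n + 1), X ^ i * e i * (if i < n then X * u (n - 1 - i) else 0) =
      - ∑ i ∈ range (n + 1), (1 - X ^ i) * e i * u (n - i) := by
    rw [sum_range_succ, if_neg (lt_irrefl n), mul_zero, add_zero, sum_range_succ']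
    rw [pow_zero, sub_self, zero_mul, zero_mul, add_zero, ← sum_neg_distrib]
    apply sum_congr rfl
    intro i hi
    rw [mem_range] at hi
    rw [if_pos hi, e_succ, show n - 1 - i = n - (i + 1) by omega, pow_succ]
    ring
  simp only [mul_sub]
  rw [sum_sub_distrib, h1, sub_neg_eq_add, ← sum_add_distrib, mul_sum]
  apply sum_congr rfl
  intro i hi
  rw [mem_range] at hi
  have h2 : (X : ℤ⟦X⟧) ^ n = X ^ i * X ^ (n - i) := by
    rw [← pow_add]
    congr 1
    omega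
  rw [h2]
  ring

/-- `D` -/
noncomputable def Dd (m : ℕ) (Y : ℤ⟦X⟧) : ℤ⟦X⟧ := h m (X * Y) - (X * Y) ^ m * h m 1

theorem h_rec (m : ℕ) (Y : ℤ⟦X⟧) :
    (1 - X * Y) * ((1 - X ^ (m + 1)) * h (m + 1) Y - X * h m Y) =
      Y * (Dd m Y - (if 0 < m then X * Dd (m - 1) Y else 0)) := by
  have e1 := h_succ m Y
  rcases m with _ | m
  · have e2 : Hs (0 + 1) Y = h 0 Y + h (0 + 1) Y := by
      unfold Hs
      rw [sum_range_succ, sum_range_one]
    rw [e2] at e1
    rw [if_neg (lt_irrefl 0)]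
    unfold Dd
    linear_combination e1
  · have e2 := h_succ m Y
    have e3 : Hs (m + 1 + 1) Y = Hs (m + 1) Y + h (m + 1 + 1) Y := by
      unfold Hs
      rw [sum_range_succ _ (m + 1 + 1)]
    rw [e3] at e1
    rw [if_pos (Nat.succ_pos m), Nat.add_sub_cancel]
    unfold Dd
    have e4 : (X : ℤ⟦X⟧) ^ (m + 1 + 1) = X * X ^ (m + 1) := by ring
    rw [e4] at e1 ⊢
    linear_combination e1 - X * e2

/-- coefficients of `(XZ; X)_∞ F(Y, Z)` -/
noncomputable def E (n : ℕ) (Y : ℤ⟦X⟧) : ℤ⟦X⟧ := ∑ i ∈ range (n + 1), e i * h (n - i) Y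

/-- coefficients of `(XZ; X)_∞ F(1, XYZ)` -/
noncomputable def G (m : ℕ) (Y : ℤ⟦X⟧) : ℤ⟦X⟧ :=
  ∑ i ∈ range (m + 1), e i * ((X * Y) ^ (m - i) * h (m - i) 1)

theorem E_zero (Y : ℤ⟦X⟧) : E 0 Y = 1 := by
  unfold E
  rw [sum_range_one, e_zero, h_zero, one_mul]

theorem E_rec (n : ℕ) (Y : ℤ⟦X⟧) :
    (1 - X * Y) * ((1 - X ^ (n + 1)) * E (n + 1) Y) = Y * (E n (X * Y) - G n Y) := by
  have e1 := conv_key (fun m => h m Y) (n + 1)
  have e2 : (∑ i ∈ range (n + 1 + 1), e i * h (n + 1 - i) Y) = E (n + 1) Y := rfl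
  rw [e2] at e1
  rw [← e1, mul_sum, sum_range_succ]
  have e3 : (1 - X * Y) * (X ^ (n + 1) * e (n + 1) * ((1 - X ^ (n + 1 - (n + 1))) *
      h (n + 1 - (n + 1)) Y - (if n + 1 < n + 1 then X * h (n + 1 - 1 - (n + 1)) Y else 0))) =
      0 := by
    rw [if_neg (lt_irrefl _), Nat.sub_self]
    simp
  rw [e3, add_zero]
  have e4 : ∀ i ∈ range (n + 1), (1 - X * Y) * (X ^ i * e i * ((1 - X ^ (n + 1 - i)) *
      h (n + 1 - i) Y - (if i < n + 1 then X * h (n + 1 - 1 - i) Y else 0))) =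
      Y * (X ^ i * e i * (Dd (n - i) Y - (if i < n then X * Dd (n - 1 - i) Y else 0))) := by
    intro i hi
    rw [mem_range] at hi
    rw [if_pos hi]
    have e5 := h_rec (n - i) Y
    have e6 : n + 1 - i = n - i + 1 := by omega
    have e7 : n + 1 - 1 - i = n - i := by omega
    have e8 : n - i - 1 = n - 1 - i := by omega
    rw [e6, e7]
    rw [e8] at e5
    by_cases hin : i < n
    · rw [if_pos hin]
      rw [if_pos (by omega)] at e5
      linear_combination (X ^ i * e i) * e5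
    · rw [if_neg hin]
      rw [if_neg (by omega)] at e5
      linear_combination (X ^ i * e i) * e5
  rw [sum_congr rfl e4, ← mul_sum]
  congr 1
  have e9 : ∀ v : ℕ → ℤ⟦X⟧, ∑ i ∈ range (n + 1), X ^ i * e i * (v (n - i) -
      (if i < n then X * v (n - 1 - i) else 0)) = ∑ i ∈ range (n + 1), e i * v (n - i) := by
    intro v
    have h1 : ∑ i ∈ range (n + 1), X ^ i * e i * (if i < n then X * v (n - 1 - i) else 0) =
        - ∑ i ∈ range (n + 1), (1 - X ^ i) * e i * v (n - i) := by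
      rw [sum_range_succ, if_neg (lt_irrefl n), mul_zero, add_zero, sum_range_succ']
      rw [pow_zero, sub_self, zero_mul, zero_mul, add_zero, ← sum_neg_distrib]
      apply sum_congr rfl
      intro i hi
      rw [mem_range] at hi
      rw [if_pos hi, e_succ, show n - 1 - i = n - (i + 1) by omega, pow_succ]
      ring
    simp only [mul_sub]
    rw [sum_sub_distrib, h1, sub_neg_eq_add, ← sum_add_distrib]
    apply sum_congr rfl
    intro i _
    ring
  rw [e9 (fun m => Dd m Y)]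
  unfold E G Dd
  rw [← sum_sub_distrib]
  apply sum_congr rfl
  intro i _
  ring

theorem qp_succ (n : ℕ) : qp (n + 1) = qp n * (1 - X ^ (n + 1)) := by
  unfold qp
  rw [prod_range_succ]

theorem qy_succ (n : ℕ) (Y : ℤ⟦X⟧) : qy (n + 1) Y = qy n (X * Y) * (1 - X * Y) := by
  unfold qy
  rw [prod_range_succ', zero_add, pow_one]
  congr 1
  apply prod_congr rfl
  intro i _
  rw [pow_succ X (i + 1)]
  ring

theorem tri_succ (j : ℕ) : (j + 1) * j / 2 = j * (j - 1) / 2 + j := by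
  rcases j with _ | j
  · rfl
  · rw [Nat.add_sub_cancel, show (j + 1 + 1) * (j + 1) = (j + 1) * j + (j + 1) * 2 by ring,
      Nat.add_mul_div_right _ _ (by norm_num)]

/-- iteration of `E_rec` -/
theorem E_closed (n : ℕ) : ∀ Y : ℤ⟦X⟧, qp n * qy n Y * E n Y =
    Y ^ n * X ^ (n * (n - 1) / 2) - ∑ j ∈ range n, Y ^ (j + 1) * X ^ ((j + 1) * j / 2) *
      (qp (n - 1 - j) * qy (n - 1 - j) (X ^ (j + 1) * Y) * G (n - 1 - j) (X ^ j * Y)) := by
  induction n with
  | zero =>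
    intro Y
    rw [E_zero]
    unfold qp qy
    simp
  | succ n ih =>
    intro Y
    have e1 := E_rec n Y
    have e2 := ih (X * Y)
    rw [qp_succ, qy_succ, sum_range_succ']
    have e3 : ∀ j ∈ range n, Y ^ (j + 1 + 1) * X ^ ((j + 1 + 1) * (j + 1) / 2) *
        (qp (n + 1 - 1 - (j + 1)) * qy (n + 1 - 1 - (j + 1)) (X ^ (j + 1 + 1) * Y) *
          G (n + 1 - 1 - (j + 1)) (X ^ (j + 1) * Y)) =
        Y * ((X * Y) ^ (j + 1) * X ^ ((j + 1) * j / 2) *
        (qp (n - 1 - j) * qy (n - 1 - j) (X ^ (j + 1) * (X * Y)) *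
          G (n - 1 - j) (X ^ j * (X * Y)))) := by
      intro j hj
      rw [mem_range] at hj
      have h1 : n + 1 - 1 - (j + 1) = n - 1 - j := by omega
      have h2 : (X : ℤ⟦X⟧) ^ (j + 1 + 1) * Y = X ^ (j + 1) * (X * Y) := by ring
      have h3 : (X : ℤ⟦X⟧) ^ (j + 1) * Y = X ^ j * (X * Y) := by ring
      have h4 : (j + 1 + 1) * (j + 1) / 2 = (j + 1) * j / 2 + (j + 1) := tri_succ (j + 1)
      rw [h1, h2, h3, h4, pow_add X, mul_pow X Y]
      ring
    rw [sum_congr rfl e3, ← mul_sum]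
    have h5 : (n + 1) * (n + 1 - 1) / 2 = n * (n - 1) / 2 + n := by
      rw [Nat.add_sub_cancel]
      exact tri_succ n
    rw [h5, pow_add X, pow_succ Y n]
    simp only [zero_add, pow_one, pow_zero, one_mul, Nat.sub_zero, Nat.add_sub_cancel, mul_zero,
      Nat.zero_div, mul_one]
    rw [mul_pow] at e2
    linear_combination (qp n * qy n (X * Y)) * e1 + Y * e2

theorem qy_X (m j : ℕ) : qp (j + 1) * qy m (X ^ (j + 1)) = qp (m + (j + 1)) := by
  unfold qp qy
  rw [add_comm m (j + 1), prod_range_add _ (j + 1) m]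
  congr 1
  apply prod_congr rfl
  intro i _
  rw [← pow_add]
  congr 2
  omega

theorem qy_one (n : ℕ) : qy n 1 = qp n := by
  unfold qp qy
  apply prod_congr rfl
  intro i _
  rw [mul_one]

/-- The triangular system for the series `k_p = h p 1`. -/
theorem tri (n : ℕ) : ∑ m ∈ range (n + 1), X ^ ((n - m) * (n - m - 1) / 2) * qp m * iqp (n - m) *
    ∑ p ∈ range (m + 1), (-1) ^ (m - p) * X ^ ((m - p) * (m - p + 1) / 2) * iqp (m - p) *
      X ^ ((n - m) * p) * h p 1 = X ^ (n * (n - 1) / 2) * iqp n := by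
  have hG : ∀ m ≤ n, (∑ p ∈ range (m + 1), (-1) ^ (m - p) * X ^ ((m - p) * (m - p + 1) / 2) *
      iqp (m - p) * X ^ ((n - m) * p) * h p 1) =
      ∑ i ∈ range (m + 1), e i * (X ^ ((n - m) * (m - i)) * h (m - i) 1) := by
    intro m hm
    rw [← sum_range_reflect]
    apply sum_congr rfl
    intro i hi
    rw [mem_range] at hi
    have h1 : m + 1 - 1 - i = m - i := by omega
    have h2 : m - (m - i) = i := by omega
    rw [h1, h2]
    unfold e
    ring
  rw [sum_range_succ]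
  have e1 := E_closed n 1
  rw [qy_one, one_pow, one_mul] at e1
  have e2 : ∑ m ∈ range n, X ^ ((n - m) * (n - m - 1) / 2) * qp m * iqp (n - m) *
      ∑ p ∈ range (m + 1), (-1) ^ (m - p) * X ^ ((m - p) * (m - p + 1) / 2) * iqp (m - p) *
      X ^ ((n - m) * p) * h p 1 = iqp n * ∑ j ∈ range n, 1 ^ (j + 1) * X ^ ((j + 1) * j / 2) *
      (qp (n - 1 - j) * qy (n - 1 - j) (X ^ (j + 1) * 1) * G (n - 1 - j) (X ^ j * 1)) := by
    rw [← sum_range_reflect, mul_sum]
    apply sum_congr rfl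
    intro j hj
    rw [mem_range] at hj
    rw [hG _ (by omega)]
    have h1 : n - (n - 1 - j) = j + 1 := by omega
    have h2 : qp (j + 1) * qy (n - 1 - j) (X ^ (j + 1)) = qp n := by
      rw [qy_X]
      congr 1
      omega
    have h3 := qp_iqp (j + 1)
    have h4 := qp_iqp n
    rw [h1, mul_one, mul_one, one_pow, one_mul, Nat.add_sub_cancel]
    have h5 : G (n - 1 - j) (X ^ j) = ∑ i ∈ range (n - 1 - j + 1),
        e i * (X ^ ((j + 1) * (n - 1 - j - i)) * h (n - 1 - j - i) 1) := by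
      unfold G
      apply sum_congr rfl
      intro i _
      rw [← pow_succ', ← pow_mul]
    rw [h5]
    have h6 : iqp (j + 1) = iqp n * qy (n - 1 - j) (X ^ (j + 1)) := by
      calc iqp (j + 1) = iqp (j + 1) * (qp n * iqp n) := by rw [h4, mul_one]
        _ = iqp (j + 1) * ((qp (j + 1) * qy (n - 1 - j) (X ^ (j + 1))) * iqp n) := by rw [h2]
        _ = (qp (j + 1) * iqp (j + 1)) * (iqp n * qy (n - 1 - j) (X ^ (j + 1))) := by ring
        _ = iqp n * qy (n - 1 - j) (X ^ (j + 1)) := by rw [h3, one_mul]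
    rw [h6]
    ring
  rw [e2, hG n le_rfl, Nat.sub_self]
  have e3 : (∑ i ∈ range (n + 1), e i * (X ^ (0 * (n - i)) * h (n - i) 1)) = E n 1 := by
    unfold E
    apply sum_congr rfl
    intro i _
    rw [zero_mul, pow_zero, one_mul]
  rw [e3]
  have h4 := qp_iqp n
  have e5 : X ^ (0 * (0 - 1) / 2) * qp n * iqp 0 * E n 1 = qp n * E n 1 := by
    have e4 : iqp 0 = 1 := by
      unfold iqp
      simp
    rw [e4]
    simp
  rw [e5]
  linear_combination (iqp n) * e1 - (qp n * E n 1) * h4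

end Pool.Agent.N349.LS
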