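import Pool.Agent.N841.LZ.Stm

set_option autoImplicit false

/-! Project LZ (helper841), part SIER: a Sierpiński set gives a tail-splitting sequence. -/

open Cardinal Set Filter MeasureTheory

namespace Pool.Agent.N349.LZSIER

open Pool.Agent.N841.LZ

theorem coin_null (R : Set ℕ) (hR : R.Infinite) (k : ℕ) (i : Bool) :
    coin {x | ∀ n ∈ R, k ≤ n → x n = i} = 0 := by
  have hle : ∀ m : ℕ, coin {x | ∀ n ∈ R, k ≤ n → x n = i} ≤ (2⁻¹ : ENNReal) ^ m := by
    intro m
    obtain ⟨F, hF, hcard⟩ := (hR.sdiff (Set.finite_lt_nat k)).exists_subset_card_eq m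
    have h1 : {x : ℕ → Bool | ∀ n ∈ R, k ≤ n → x n = i} ⊆ Set.pi (F : Set ℕ) fun _ => {i} := by
      intro x hx n hn
      have h2 := hF hn
      exact hx n h2.1 (not_lt.mp h2.2)
    refine (measure_mono h1).trans (le_of_eq ?_)
    rw [coin, Measure.infinitePi_pi]
    · rw [← hcard, ← Finset.prod_const]
      refine Finset.prod_congr rfl fun n _ => ?_
      rw [PMF.toMeasure_apply_singleton _ _ (measurableSet_singleton i),
        PMF.uniformOfFintype_apply]
      simp
    · intro n _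
      exact measurableSet_singleton i
  have hlim : Tendsto (fun m : ℕ => (2⁻¹ : ENNReal) ^ m) atTop (nhds 0) :=
    ENNReal.tendsto_pow_atTop_nhds_zero_of_lt_one (by simp [ENNReal.inv_lt_one])
  exact le_antisymm (ge_of_tendsto' hlim hle) zero_le

theorem t_SIER : S_SIER := by
  rintro ⟨X, hX, hN⟩
  have hcard : #Om ≤ #X := by
    rw [Om, Cardinal.mk_ord_toType, Cardinal.aleph_one_le_iff]
    rw [← not_le, Cardinal.le_aleph0_iff_set_countable]
    exact hX
  obtain ⟨s⟩ := (Cardinal.le_def _ _).mp hcard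
  refine ⟨fun a => {n | (s a).1 n = true}, fun R hR => ?_⟩
  set U : Set (ℕ → Bool) := ⋃ k : ℕ, ⋃ i : Bool, {x | ∀ n ∈ R, k ≤ n → x n = i} with hU
  have hU0 : coin U = 0 :=
    measure_iUnion_null fun k => measure_iUnion_null fun i => coin_null R hR k i
  have hinj : Function.Injective fun a : Om => (s a).1 := fun a b h => s.injective (Subtype.ext h)
  refine ((hN U hU0).preimage hinj).mono ?_
  intro a ha
  refine ⟨(s a).2, ?_⟩
  rw [hU, Set.mem_iUnion]
  by_cases h1 : (R ∩ {n | (s a).1 n = true}).Infinite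
  · have h2 : (R \ {n | (s a).1 n = true}).Finite := by
      by_contra h
      exact ha ⟨h1, h⟩
    obtain ⟨k, hk⟩ := h2.bddAbove
    refine ⟨k + 1, Set.mem_iUnion.mpr ⟨true, fun n hn hkn => ?_⟩⟩
    by_contra h
    have := hk (show n ∈ R \ {n | (s a).1 n = true} from ⟨hn, h⟩)
    omega
  · obtain ⟨k, hk⟩ := (Set.not_infinite.mp h1).bddAbove
    refine ⟨k + 1, Set.mem_iUnion.mpr ⟨false, fun n hn hkn => ?_⟩⟩
    by_contra h
    have := hk (show n ∈ R ∩ {n | (s a).1 n = true} from ⟨hn, by simpa using h⟩)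
    omega

end Pool.Agent.N349.LZSIER
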