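import Mathlib

set_option autoImplicit false

/-! Permutations `π` such that `π` and `π²` avoid `321` and `1342`: structure and recursion. -/

namespace Pool.Agent.N349.SAv

open Equiv Finset

/-- no decreasing triple -/
def A321 (f : ℕ → ℕ) : Prop := ∀ i j k : ℕ, i < j → j < k → ¬ (f k < f j ∧ f j < f i)

/-- no occurrence of `1342` -/
def A1342 (f : ℕ → ℕ) : Prop :=
  ∀ i j k l : ℕ, i < j → j < k → k < l → ¬ (f i < f l ∧ f l < f j ∧ f j < f k)

/-- both `f` and `f ∘ f` avoid `321` and `1342` -/
structure Good (f : ℕ → ℕ) : Prop where
  a : A321 f
  b : A1342 f
  c : A321 (fun i => f (f i))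
  d : A1342 (fun i => f (f i))

/-- permutations of `ℕ` fixing all `i ≥ n` and strongly avoiding `321`, `1342` -/
def T (n : ℕ) : Set (Perm ℕ) := {σ | (∀ i, n ≤ i → σ i = i) ∧ Good σ}

theorem val_lt {n : ℕ} {σ : Perm ℕ} (h : ∀ i, n ≤ i → σ i = i) {i : ℕ} (hi : i < n) : σ i < n := by
  by_contra h1
  have h2 := h (σ i) (by omega)
  have h3 := σ.injective h2
  omega

theorem card_lt {n : ℕ} {σ : Perm ℕ} (h : ∀ i, n ≤ i → σ i = i) {i : ℕ} (hi : i < n) :
    ((range n).filter (fun j => σ j < σ i)).card = σ i := by
  have h1 : ((range n).filter (fun j => σ j < σ i)).map σ.toEmbedding = range (σ i) := by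
    ext x
    simp only [mem_map, mem_filter, mem_range, Equiv.coe_toEmbedding]
    constructor
    · rintro ⟨j, ⟨-, h2⟩, rfl⟩
      exact h2
    · intro hx
      refine ⟨σ.symm x, ⟨?_, ?_⟩, σ.apply_symm_apply x⟩
      · by_contra h2
        have h3 := h (σ.symm x) (by omega)
        rw [σ.apply_symm_apply] at h3
        have := val_lt h hi
        omega
      · rw [σ.apply_symm_apply]
        exact hx
  have h2 := congrArg Finset.card h1
  rwa [card_map, card_range] at h2

/-- the value at `i` when the smaller values sit on two intervals -/
theorem val_eq {n : ℕ} {σ : Perm ℕ} (h : ∀ i, n ≤ i → σ i = i) {i : ℕ} (hi : i < n)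
    (a b c d e : ℕ) (hab : a ≤ b) (hbc : b ≤ c) (hcd : c ≤ d) (hde : d ≤ e) 
    (hen : e ≤ n) (hJ : ∀ j, j < n → (σ j < σ i ↔ (j < a ∨ (b ≤ j ∧ j < c) ∨ (d ≤ j ∧ j < e)))) :
    σ i = a + (c - b) + (e - d) := by
  have h1 : (range n).filter (fun j => σ j < σ i) = (Ico 0 a ∪ Ico b c) ∪ Ico d e := by
    ext j
    simp only [mem_filter, mem_range, mem_union, mem_Ico, zero_le, true_and]
    constructor
    · rintro ⟨h2, h3⟩
      rcases (hJ j h2).mp h3 with h4 | h4 | h4
      · exact Or.inl (Or.inl h4)
      · exact Or.inl (Or.inr h4)
      · exact Or.inr h4
    · intro h2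
      have h3 : j < n := by omega
      refine ⟨h3, (hJ j h3).mpr ?_⟩
      rcases h2 with (h4 | h4) | h4
      · exact Or.inl h4
      · exact Or.inr (Or.inl h4)
      · exact Or.inr (Or.inr h4)
  rw [← card_lt h hi, h1, card_union_of_disjoint, card_union_of_disjoint]
  · simp
  · rw [disjoint_left]
    intro x hx hx'
    simp only [mem_Ico] at hx hx'
    omega
  · rw [disjoint_left]
    intro x hx hx'
    simp only [mem_union, mem_Ico] at hx hx'
    omega

/-- rotation of `[0, N)` by `k` -/
def rotF (N k i : ℕ) : ℕ := if i < N then (if i + k < N then i + k else i + k - N) else i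

theorem structure_thm {N : ℕ} (hN : 3 ≤ N) {σ : Perm ℕ} (h : σ ∈ T N) (hl : σ (N - 1) ≠ N - 1) :
    (σ (N - 1) = N - 2 ∧ σ (N - 2) = N - 1) ∨
      ∃ k, 1 ≤ k ∧ k ≤ N - 1 ∧ ∀ i, σ i = rotF N k i := by
  obtain ⟨hf, hG⟩ := h
  have inj : ∀ i j, σ i = σ j → i = j := fun i j hij => σ.injective hij
  have hlt : ∀ i, i < N → σ i < N := fun i hi => val_lt hf hi
  obtain ⟨q, hq⟩ := σ.surjective (N - 1)
  have hqN : q < N - 1 := by
    by_contra h1
    by_cases h2 : q = N - 1
    · rw [h2] at hq
      exact hl hq
    · have := hf q (by omega)
      omega
  -- the part after `q` is increasing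
  have incZ : ∀ i j, q < i → i < j → j < N → σ i < σ j := by
    intro i j h1 h2 h3
    by_contra h4
    have h5 : σ i ≠ σ j := fun h5 => by have := inj _ _ h5; omega
    have h6 : σ i < N := hlt i (by omega)
    have h7 : σ i ≠ N - 1 := fun h7 => by have := inj i q (h7.trans hq.symm); omega
    exact hG.a q i j h1 h2 ⟨by omega, by omega⟩
  -- the initial segment of the positions with value greater than `σ (q + 1)`
  have ex : ∃ a, a = q ∨ σ a < σ (q + 1) := ⟨q, Or.inl rfl⟩
  classical
  obtain ⟨a, ha, hmin⟩ : ∃ a, (a = q ∨ σ a < σ (q + 1)) ∧ ∀ i < a, ¬ (i = q ∨ σ i < σ (q + 1)) :=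
    ⟨Nat.find ex, Nat.find_spec ex, fun i hi => Nat.find_min ex hi⟩
  have haq : a ≤ q := by
    by_contra h1
    exact hmin q (by omega) (Or.inl rfl)
  have hA : ∀ i, i < a → σ (q + 1) < σ i := by
    intro i hi
    have h1 := hmin i hi
    have h2 : σ i ≠ σ (q + 1) := fun h2 => by have := inj _ _ h2; omega
    omega
  have hC : ∀ i, a ≤ i → i < q → σ i < σ (q + 1) := by
    intro i h1 h2
    by_contra h3
    have h4 : σ i ≠ σ (q + 1) := fun h2 => by have := inj _ _ h2; omega
    have h5 : σ a < σ (q + 1) := by
      rcases ha with h5 | h5
      · omega
      · exact h5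
    have h6 : a < i := by
      rcases Nat.eq_or_lt_of_le h1 with h6 | h6
      · rw [← h6] at h3
        omega
      · exact h6
    have h7 : σ i < N := hlt i (by omega)
    have h8 : σ i ≠ N - 1 := fun h7 => by have := inj i q (h7.trans hq.symm); omega
    exact hG.b a i q (q + 1) h6 h2 (by omega) ⟨h5, by omega, by omega⟩
  have incA : ∀ i j, i < j → j < a → σ i < σ j := by
    intro i j h1 h2
    by_contra h3
    have h4 : σ i ≠ σ j := fun h5 => by have := inj _ _ h5; omega
    exact hG.a i j (q + 1) h1 (by omega) ⟨hA j h2, by omega⟩
  have hmax : ∀ i, i < N → i ≠ q → σ i < N - 1 := by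
    intro i hi hiq
    have h7 : σ i < N := hlt i (by omega)
    have h8 : σ i ≠ N - 1 := fun h7 => by have := inj i q (h7.trans hq.symm); omega
    omega
  by_cases ha0 : a = 0
  · -- `D` is empty
    subst ha0
    have hZ : ∀ i, q < i → i < N → σ i = i - 1 := by
      intro i h1 h2
      have h3 : σ (q + 1) ≤ σ i := by
        rcases Nat.eq_or_lt_of_le (show q + 1 ≤ i from h1) with h3 | h3
        · rw [h3]
        · exact (incZ (q + 1) i (by omega) h3 h2).le
      have h4 := val_eq hf h2 0 0 q (q + 1) i (by omega) (by omega) (by omega) (by omega)
        (by omega) (by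
          intro j hj
          constructor
          · intro h5
            by_cases h6 : j < q
            · exact Or.inr (Or.inl ⟨by omega, h6⟩)
            · have h7 : j ≠ q := by
                intro h7
                rw [h7, hq] at h5
                have := hmax i h2 (by omega)
                omega
              have h8 : j < i := by
                by_contra h9
                rcases Nat.eq_or_lt_of_le (show i ≤ j by omega) with h10 | h10
                · rw [h10] at h5; omega
                · have := incZ i j h1 h10 hj
                  omega
              exact Or.inr (Or.inr ⟨by omega, h8⟩)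
          · rintro (h5 | ⟨h5, h6⟩ | ⟨h5, h6⟩)
            · omega
            · exact lt_of_lt_of_le (hC j h5 h6) h3
            · exact incZ j i (by omega) h6 h2)
      omega
    by_cases hq0 : q = 0
    · right
      refine ⟨N - 1, by omega, le_rfl, fun i => ?_⟩
      unfold rotF
      by_cases hi : i < N
      · rw [if_pos hi]
        by_cases hi0 : i = 0
        · rw [if_pos (by omega), hi0, ← hq0, hq]
          omega
        · rw [if_neg (by omega), hZ i (by omega) hi]
          omega
      · rw [if_neg hi, hf i (by omega)]
    · by_cases hq1 : q = N - 2
      · left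
        refine ⟨?_, ?_⟩
        · rw [hZ (N - 1) (by omega) (by omega)]
          omega
        · rw [← hq1, hq]
      · exfalso
        have v0 : σ 0 < q := by
          have h1 := hC 0 le_rfl (by omega)
          rw [hZ (q + 1) (by omega) (by omega)] at h1
          omega
        have v1 : σ (σ 0) < q := by
          have h1 := hC (σ 0) (by omega) v0
          rw [hZ (q + 1) (by omega) (by omega)] at h1
          omega
        have v2 : σ (σ q) = N - 2 := by
          rw [hq, hZ (N - 1) (by omega) (by omega)]
          omega
        have v3 : σ (σ (q + 1)) = N - 1 := by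
          rw [hZ (q + 1) (by omega) (by omega), Nat.add_sub_cancel, hq]
        have v4 : σ (σ (q + 2)) = q := by
          rw [hZ (q + 2) (by omega) (by omega), show q + 2 - 1 = q + 1 by omega,
            hZ (q + 1) (by omega) (by omega), Nat.add_sub_cancel]
        exact hG.d 0 q (q + 1) (q + 2) (by omega) (by omega) (by omega)
          ⟨by show σ (σ 0) < σ (σ (q + 2)); omega, by show σ (σ (q + 2)) < σ (σ q); omega,
            by show σ (σ q) < σ (σ (q + 1)); omega⟩
  · -- `D` is nonempty
    have ha1 : 1 ≤ a := by omega
    have exe : ∃ e, q < e ∧ (e = N ∨ σ 0 < σ e) := ⟨N, by omega, Or.inl rfl⟩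
    obtain ⟨e, ⟨hqe, he⟩, hemin⟩ : ∃ e, (q < e ∧ (e = N ∨ σ 0 < σ e)) ∧
        ∀ i < e, ¬ (q < i ∧ (i = N ∨ σ 0 < σ i)) :=
      ⟨Nat.find exe, Nat.find_spec exe, fun i hi => Nat.find_min exe hi⟩
    have heN : e ≤ N := by
      by_contra h1
      exact hemin N (by omega) ⟨by omega, Or.inl rfl⟩
    have hL : ∀ i, q < i → i < e → σ i < σ 0 := by
      intro i h1 h2
      have h3 := hemin i h2
      have h4 : σ i ≠ σ 0 := fun h5 => by have := inj _ _ h5; omega
      have h5 : ¬ (σ 0 < σ i) := fun h5 => h3 ⟨h1, Or.inr h5⟩
      omega
    have hH0 : ∀ i, e ≤ i → i < N → σ 0 < σ i := by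
      intro i h1 h2
      have h3 : σ 0 < σ e := by
        rcases he with h3 | h3
        · omega
        · exact h3
      rcases Nat.eq_or_lt_of_le h1 with h4 | h4
      · rwa [← h4]
      · exact h3.trans (incZ e i hqe h4 h2)
    have hH : ∀ i, e ≤ i → i < N → ∀ j, j < a → σ j < σ i := by
      intro i h1 h2 j hj
      by_contra h3
      have h0 := hH0 i h1 h2
      have h4 : σ i ≠ σ j := fun h5 => by have := inj _ _ h5; omega
      have h5 : 0 < j := by
        by_contra h5
        have : j = 0 := by omega
        rw [this] at h3
        omega
      exact hG.b 0 j q i h5 (by omega) (by omega) ⟨h0, by omega, by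
        rw [hq]; exact hmax j (by omega) (by omega)⟩
    have he2 : q + 2 ≤ e := by
      by_contra h1
      have h2 : e = q + 1 := by omega
      rcases he with h3 | h3
      · omega
      · rw [h2] at h3
        have := hA 0 (by omega)
        omega
    have hA0 : ∀ i, i < a → σ 0 ≤ σ i := by
      intro i hi
      rcases Nat.eq_zero_or_pos i with h1 | h1
      · rw [h1]
      · exact (incA 0 i h1 hi).le
    have hZ1 : ∀ i, q < i → i < N → σ (q + 1) ≤ σ i := by
      intro i h1 h2
      rcases Nat.eq_or_lt_of_le (show q + 1 ≤ i from h1) with h3 | h3
      · rw [h3]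
      · exact (incZ (q + 1) i (by omega) h3 h2).le
    -- the values
    have VA : ∀ i, i < a → σ i = i + e - a - 1 := by
      intro i hi
      have h4 := val_eq hf (show i < N by omega) i a q (q + 1) e (by omega) (by omega) (by omega)
        (by omega) (by omega) (by
          intro j hj
          constructor
          · intro h5
            by_cases h6 : j < a
            · left
              by_contra h7
              rcases Nat.eq_or_lt_of_le (show i ≤ j by omega) with h8 | h8
              · rw [h8] at h5; omega
              · have := incA i j h8 h6
                omega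
            · right
              by_cases h7 : j < q
              · exact Or.inl ⟨by omega, h7⟩
              · right
                have h8 : j ≠ q := by
                  intro h8
                  rw [h8, hq] at h5
                  have := hmax i (by omega) (by omega)
                  omega
                refine ⟨by omega, ?_⟩
                by_contra h9
                have := hH j (by omega) hj i hi
                omega
          · rintro (h5 | ⟨h5, h6⟩ | ⟨h5, h6⟩)
            · exact incA j i h5 hi
            · exact (hC j h5 h6).trans (hA i hi)
            · exact lt_of_lt_of_le (hL j (by omega) h6) (hA0 i hi))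
      omega
    have VL : ∀ i, q < i → i < e → σ i = i - a - 1 := by
      intro i hi hi'
      have h4 := val_eq hf (show i < N by omega) 0 a q (q + 1) i (by omega) (by omega) (by omega)
        (by omega) (by omega) (by
          intro j hj
          constructor
          · intro h5
            right
            by_cases h6 : j < a
            · exfalso
              have h7 := hL i hi hi'
              have h8 := hA0 j h6
              omega
            · by_cases h7 : j < q
              · exact Or.inl ⟨by omega, h7⟩
              · right
                have h8 : j ≠ q := by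
                  intro h8
                  rw [h8, hq] at h5
                  have := hmax i (by omega) (by omega)
                  omega
                refine ⟨by omega, ?_⟩
                by_contra h9
                rcases Nat.eq_or_lt_of_le (show i ≤ j by omega) with h10 | h10
                · rw [h10] at h5; omega
                · have := incZ i j hi h10 hj
                  omega
          · rintro (h5 | ⟨h5, h6⟩ | ⟨h5, h6⟩)
            · omega
            · exact lt_of_lt_of_le (hC j h5 h6) (hZ1 i hi (by omega))
            · exact incZ j i (by omega) h6 (by omega))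
      omega
    have VH : ∀ i, e ≤ i → i < N → σ i = i - 1 := by
      intro i hi hi'
      have h4 := val_eq hf (show i < N by omega) 0 0 q (q + 1) i (by omega) (by omega) (by omega)
        (by omega) (by omega) (by
          intro j hj
          constructor
          · intro h5
            right
            by_cases h7 : j < q
            · exact Or.inl ⟨by omega, h7⟩
            · right
              have h8 : j ≠ q := by
                intro h8
                rw [h8, hq] at h5
                have := hmax i (by omega) (by omega)
                omega
              refine ⟨by omega, ?_⟩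
              by_contra h9
              rcases Nat.eq_or_lt_of_le (show i ≤ j by omega) with h10 | h10
              · rw [h10] at h5; omega
              · have := incZ i j (by omega) h10 hj
                omega
          · rintro (h5 | ⟨h5, h6⟩ | ⟨h5, h6⟩)
            · omega
            · by_cases h7 : j < a
              · exact hH i hi hi' j h7
              · exact lt_of_lt_of_le (hC j (by omega) h6) (hZ1 i (by omega) (by omega))
            · exact incZ j i (by omega) h6 (by omega))
      omega
    have VC : ∀ i, a ≤ i → i < q → σ i < q - a := by
      intro i h1 h2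
      have h3 := hC i h1 h2
      rw [VL (q + 1) (by omega) (by omega)] at h3
      omega
    by_cases ht : e < N
    · exfalso
      -- value of `σ (N - 2)`
      have hw : σ (N - 2) < N - 2 ∧ N - 3 - a ≤ σ (N - 2) ∧
          (e ≤ N - 2 → σ (N - 2) = N - 3) := by
        by_cases h1 : e ≤ N - 2
        · have := VH (N - 2) h1 (by omega)
          refine ⟨by omega, by omega, fun _ => by omega⟩
        · have := VL (N - 2) (by omega) (by omega)
          refine ⟨by omega, by omega, fun _ => by omega⟩
      have v1 : σ (σ q) = N - 2 := by
        rw [hq, VH (N - 1) (by omega) (by omega)]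
        omega
      have v2 : σ (σ (N - 1)) = σ (N - 2) := by
        rw [VH (N - 1) (by omega) (by omega)]
        congr 1
      by_cases hs : e - q - 1 ≤ a
      · have v0 : σ (σ (a - (e - q - 1))) = N - 1 := by
          rw [VA (a - (e - q - 1)) (by omega), ← hq]
          congr 1
          omega
        exact hG.c (a - (e - q - 1)) q (N - 1) (by omega) (by omega)
          ⟨by show σ (σ (N - 1)) < σ (σ q); omega,
            by show σ (σ q) < σ (σ (a - (e - q - 1))); omega⟩
      · have v0 : σ (σ 0) = e - 2 * a - 2 := by
          rw [VA 0 (by omega), VL (0 + e - a - 1) (by omega) (by omega)]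
          omega
        have v3 : σ (σ (q + a + 1)) = N - 1 := by
          rw [VL (q + a + 1) (by omega) (by omega), ← hq]
          congr 1
          omega
        exact hG.d 0 q (q + a + 1) (N - 1) (by omega) (by omega) (by omega)
          ⟨by show σ (σ 0) < σ (σ (N - 1)); omega, by show σ (σ (N - 1)) < σ (σ q); omega,
            by show σ (σ q) < σ (σ (q + a + 1)); omega⟩
    · have heN' : e = N := by omega
      by_cases hc : a < q
      · exfalso
        obtain ⟨p, hp⟩ := σ.surjective 0
        have hpN : p < N := by
          by_contra h1
          have := hf p (by omega)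
          omega
        have hpa : a ≤ p := by
          by_contra h1
          have := VA p (by omega)
          omega
        have hpq : p < q := by
          by_contra h1
          by_cases h2 : p = q
          · rw [h2, hq] at hp
            omega
          · have := VL p (by omega) (by omega)
            omega
        have v1 : σ (σ p) = e - a - 1 := by
          rw [hp, VA 0 (by omega)]
          omega
        have v2 : σ (σ q) = e - a - 2 := by
          rw [hq, VL (N - 1) (by omega) (by omega)]
          omega
        by_cases hs : e - q - 1 ≤ a
        · have v0 : σ (σ (a - (e - q - 1))) = N - 1 := by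
            rw [VA (a - (e - q - 1)) (by omega), ← hq]
            congr 1
            omega
          exact hG.c (a - (e - q - 1)) p q (by omega) (by omega)
            ⟨by show σ (σ q) < σ (σ p); omega,
              by show σ (σ p) < σ (σ (a - (e - q - 1))); omega⟩
        · have v3 : σ (σ (q + a)) < q - a := by
            rw [VL (q + a) (by omega) (by omega)]
            exact VC _ (by omega) (by omega)
          exact hG.c p q (q + a) (by omega) (by omega)
            ⟨by show σ (σ (q + a)) < σ (σ q); omega,
              by show σ (σ q) < σ (σ p); omega⟩
      · right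
        refine ⟨N - 1 - q, by omega, by omega, fun i => ?_⟩
        unfold rotF
        by_cases hi : i < N
        · rw [if_pos hi]
          by_cases h1 : i < q
          · rw [if_pos (by omega), VA i (by omega)]
            omega
          · by_cases h2 : i = q
            · rw [h2, if_pos (by omega), hq]
              omega
            · rw [if_neg (by omega), VL i (by omega) (by omega)]
              omega
        · rw [if_neg hi, hf i (by omega)]

end Pool.Agent.N349.SAv
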