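import Mathlib
import Pool.Agent.N349.SAv

set_option autoImplicit false

/-! Counting the permutations which strongly avoid `321` and `1342`. -/

namespace Pool.Agent.N349.SAv

open Equiv Finset

theorem rotF_321 (N k : ℕ) (hk : k < N) : A321 (rotF N k) := by
  intro i j l hij hjl ⟨h1, h2⟩
  unfold rotF at h1 h2
  split_ifs at h1 h2 <;> omega

theorem rotF_1342 (N k : ℕ) (hk : k < N) : A1342 (rotF N k) := by
  intro i j l m hij hjl hlm ⟨h1, h2, h3⟩
  unfold rotF at h1 h2 h3
  split_ifs at h1 h2 h3 <;> omega

theorem rotF_sq (N k : ℕ) (hk : k < N) :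
    ∃ k', k' < N ∧ (fun i => rotF N k (rotF N k i)) = rotF N k' := by
  by_cases h : 2 * k < N
  · refine ⟨2 * k, h, ?_⟩
    funext i
    unfold rotF
    split_ifs <;> omega
  · refine ⟨2 * k - N, by omega, ?_⟩
    funext i
    unfold rotF
    split_ifs <;> omega

/-- rotation as a permutation -/
def rot (N k : ℕ) (hk : k < N) : Perm ℕ where
  toFun := rotF N k
  invFun := rotF N (if k = 0 then 0 else N - k)
  left_inv := by
    intro i
    unfold rotF
    split_ifs <;> omega
  right_inv := by
    intro i
    unfold rotF
    split_ifs <;> omega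

theorem rot_good (N k : ℕ) (hk : k < N) : Good (rotF N k) := by
  obtain ⟨k', hk', h⟩ := rotF_sq N k hk
  exact ⟨rotF_321 N k hk, rotF_1342 N k hk, by rw [h]; exact rotF_321 N k' hk',
    by rw [h]; exact rotF_1342 N k' hk'⟩

/-- rotation, with a junk value for `k ≥ N` -/
def rot' (N k : ℕ) : Perm ℕ := if hk : k < N then rot N k hk else 1

theorem rot'_apply {N k : ℕ} (hk : k < N) (i : ℕ) : rot' N k i = rotF N k i := by
  unfold rot'
  rw [dif_pos hk]
  rfl

theorem rot'_mem {N k : ℕ} (hk : k < N) : rot' N k ∈ T N := by
  have h : (fun i => rot' N k i) = rotF N k := funext fun i => rot'_apply hk i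
  refine ⟨fun i hi => ?_, ?_⟩
  · rw [rot'_apply hk]
    unfold rotF
    rw [if_neg (by omega)]
  · have := rot_good N k hk
    rw [← h] at this
    exact this

theorem T_mono (n : ℕ) : T n ⊆ T (n + 1) := fun _ h => ⟨fun i hi => h.1 i (by omega), h.2⟩

/-- adding a transposition at the end -/
theorem swap_mem {n : ℕ} {σ : Perm ℕ} (h : σ ∈ T n) : σ * swap n (n + 1) ∈ T (n + 2) := by
  obtain ⟨hf, hG⟩ := h
  have hv : ∀ i, (σ * swap n (n + 1)) i = if i < n then σ i else if i = n then n + 1 else
      if i = n + 1 then n else i := by
    intro i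
    rw [Perm.mul_apply]
    by_cases h1 : i < n
    · rw [if_pos h1, swap_apply_of_ne_of_ne (by omega) (by omega)]
    · rw [if_neg h1]
      by_cases h2 : i = n
      · rw [if_pos h2, h2, swap_apply_left, hf (n + 1) (by omega)]
      · rw [if_neg h2]
        by_cases h3 : i = n + 1
        · rw [if_pos h3, h3, swap_apply_right, hf n le_rfl]
        · rw [if_neg h3, swap_apply_of_ne_of_ne h2 h3, hf i (by omega)]
  have hlt : ∀ i, i < n → σ i < n := fun i hi => val_lt hf hi
  have hsq : (fun i => (σ * swap n (n + 1)) ((σ * swap n (n + 1)) i)) = fun i => σ (σ i) := by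
    funext i
    rw [hv i]
    by_cases h1 : i < n
    · rw [if_pos h1, hv, if_pos (hlt i h1)]
    · rw [if_neg h1, hf i (by omega), hf i (by omega)]
      by_cases h2 : i = n
      · rw [if_pos h2, hv, if_neg (by omega), if_neg (by omega), if_pos rfl, h2]
      · rw [if_neg h2]
        by_cases h3 : i = n + 1
        · rw [if_pos h3, hv, if_neg (by omega), if_pos rfl, h3]
        · rw [if_neg h3, hv, if_neg h1, if_neg h2, if_neg h3]
  refine ⟨fun i hi => ?_, ?_, ?_, ?_, ?_⟩
  · rw [hv, if_neg (by omega), if_neg (by omega), if_neg (by omega)]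
  · intro i j k hij hjk ⟨h1, h2⟩
    rw [hv k, hv j] at h1
    rw [hv j, hv i] at h2
    by_cases h3 : k < n
    · rw [if_pos h3, if_pos (by omega)] at h1
      rw [if_pos (by omega), if_pos (by omega)] at h2
      exact hG.a i j k hij hjk ⟨h1, h2⟩
    · rw [if_neg h3] at h1
      by_cases h4 : j < n
      · rw [if_pos h4] at h1
        have := hlt j h4
        split_ifs at h1 <;> omega
      · rw [if_neg h4] at h1 h2
        by_cases h5 : i < n
        · rw [if_pos h5] at h2
          have := hlt i h5
          split_ifs at h2 <;> omega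
        · rw [if_neg h5] at h2
          split_ifs at h1 h2 <;> omega
  · intro i j k l hij hjk hkl ⟨h1, h2, h3⟩
    rw [hv i, hv l] at h1
    rw [hv l, hv j] at h2
    rw [hv j, hv k] at h3
    by_cases h4 : l < n
    · rw [if_pos (by omega), if_pos h4] at h1
      rw [if_pos h4, if_pos (by omega)] at h2
      rw [if_pos (by omega), if_pos (by omega)] at h3
      exact hG.b i j k l hij hjk hkl ⟨h1, h2, h3⟩
    · rw [if_neg h4] at h1 h2
      by_cases h5 : j < n
      · rw [if_pos h5] at h2
        have := hlt j h5
        split_ifs at h2 <;> omega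
      · rw [if_neg h5] at h2 h3
        rw [if_neg (show ¬ k < n by omega)] at h3
        split_ifs at h2 h3 <;> omega
  · rw [hsq]
    exact hG.c
  · rw [hsq]
    exact hG.d

theorem T_union (n : ℕ) (hn : 1 ≤ n) : T (n + 2) =
    (T (n + 1) ∪ (fun σ : Perm ℕ => σ * swap n (n + 1)) '' T n) ∪
      (fun k => rot' (n + 2) k) '' (Finset.Icc 1 (n + 1) : Set ℕ) := by
  ext σ
  constructor
  · intro h
    by_cases hl : σ (n + 1) = n + 1
    · left; left
      refine ⟨fun i hi => ?_, h.2⟩
      rcases Nat.eq_or_lt_of_le hi with h1 | h1
      · rw [← h1, hl]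
      · exact h.1 i (by omega)
    · rcases structure_thm (N := n + 2) (by omega) h hl with ⟨h1, h2⟩ | ⟨k, hk1, hk2, hk⟩
      · left; right
        have h1' : σ (n + 1) = n := h1
        have h2' : σ n = n + 1 := h2
        refine ⟨σ * swap n (n + 1), ⟨fun i hi => ?_, ?_⟩, ?_⟩
        · rw [Perm.mul_apply]
          by_cases h3 : i = n
          · rw [h3, swap_apply_left, h1']
          · by_cases h4 : i = n + 1
            · rw [h4, swap_apply_right, h2']
            · rw [swap_apply_of_ne_of_ne h3 h4, h.1 i (by omega)]
        · -- goodness of the restriction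
          have hτ : ∀ i, (σ * swap n (n + 1)) i = if i < n then σ i else i := by
            intro i
            rw [Perm.mul_apply]
            by_cases h5 : i < n
            · rw [if_pos h5, swap_apply_of_ne_of_ne (by omega) (by omega)]
            · rw [if_neg h5]
              by_cases h3 : i = n
              · rw [h3, swap_apply_left, h1']
              · by_cases h4 : i = n + 1
                · rw [h4, swap_apply_right, h2']
                · rw [swap_apply_of_ne_of_ne h3 h4, h.1 i (by omega)]
          have hlt : ∀ i, i < n → σ i < n := by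
            intro i hi
            have h3 : σ i < n + 2 := val_lt h.1 (by omega)
            have h4 : σ i ≠ n := fun h4 => by
              have := σ.injective (h4.trans h1'.symm); omega
            have h5 : σ i ≠ n + 1 := fun h5 => by
              have := σ.injective (h5.trans h2'.symm); omega
            omega
          have hsq : ∀ i, (σ * swap n (n + 1)) ((σ * swap n (n + 1)) i) = σ (σ i) := by
            intro i
            rw [hτ i]
            by_cases h3 : i < n
            · rw [if_pos h3, hτ, if_pos (hlt i h3)]
            · rw [if_neg h3, hτ, if_neg h3]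
              by_cases h4 : i = n
              · rw [h4, h2', h1']
              · by_cases h5 : i = n + 1
                · rw [h5, h1', h2']
                · rw [h.1 i (by omega), h.1 i (by omega)]
          refine ⟨?_, ?_, ?_, ?_⟩
          · intro i j k hij hjk ⟨h3, h4⟩
            rw [hτ k, hτ j] at h3
            rw [hτ j, hτ i] at h4
            by_cases h5 : k < n
            · rw [if_pos h5, if_pos (by omega)] at h3
              rw [if_pos (by omega), if_pos (by omega)] at h4
              exact h.2.a i j k hij hjk ⟨h3, h4⟩
            · rw [if_neg h5] at h3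
              by_cases h6 : j < n
              · rw [if_pos h6] at h3
                have := hlt j h6
                omega
              · rw [if_neg h6] at h3
                omega
          · intro i j k l hij hjk hkl ⟨h3, h4, h5⟩
            rw [hτ i, hτ l] at h3
            rw [hτ l, hτ j] at h4
            rw [hτ j, hτ k] at h5
            by_cases h6 : l < n
            · rw [if_pos (by omega), if_pos h6] at h3
              rw [if_pos h6, if_pos (by omega)] at h4
              rw [if_pos (by omega), if_pos (by omega)] at h5
              exact h.2.b i j k l hij hjk hkl ⟨h3, h4, h5⟩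
            · rw [if_neg h6] at h4
              by_cases h7 : j < n
              · rw [if_pos h7] at h4
                have := hlt j h7
                omega
              · rw [if_neg h7] at h4
                omega
          · have e : (fun i => (σ * swap n (n + 1)) ((σ * swap n (n + 1)) i)) =
                fun i => σ (σ i) := funext hsq
            rw [e]
            exact h.2.c
          · have e : (fun i => (σ * swap n (n + 1)) ((σ * swap n (n + 1)) i)) =
                fun i => σ (σ i) := funext hsq
            rw [e]
            exact h.2.d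
        · show σ * swap n (n + 1) * swap n (n + 1) = σ
          rw [mul_assoc, swap_mul_self, mul_one]
      · right
        refine ⟨k, ?_, ?_⟩
        · simp only [Finset.coe_Icc, Set.mem_Icc]
          omega
        · ext i
          show rot' (n + 2) k i = σ i
          rw [rot'_apply (by omega), hk i]
  · rintro ((h | ⟨τ, hτ, rfl⟩) | ⟨k, hk, rfl⟩)
    · exact T_mono _ h
    · exact swap_mem hτ
    · simp only [Finset.coe_Icc, Set.mem_Icc] at hk
      exact rot'_mem (by omega)

theorem one_mem (n : ℕ) : (1 : Perm ℕ) ∈ T n := by
  refine ⟨fun i _ => rfl, ?_, ?_, ?_, ?_⟩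
  · intro i j k h1 h2 ⟨h3, h4⟩
    simp only [Perm.one_apply] at h3 h4
    omega
  · intro i j k l h1 h2 h3 ⟨h4, h5, h6⟩
    simp only [Perm.one_apply] at h4 h5 h6
    omega
  · intro i j k h1 h2 ⟨h3, h4⟩
    simp only [Perm.one_apply] at h3 h4
    omega
  · intro i j k l h1 h2 h3 ⟨h4, h5, h6⟩
    simp only [Perm.one_apply] at h4 h5 h6
    omega

theorem T_le_one {n : ℕ} (hn : n ≤ 1) : T n = {1} := by
  ext σ
  constructor
  · intro h
    rw [Set.mem_singleton_iff]
    ext i
    rw [Perm.one_apply]
    by_cases hi : n ≤ i
    · exact h.1 i hi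
    · have := val_lt h.1 (show i < n by omega)
      omega
  · rintro rfl
    exact one_mem n

theorem T_two : T 2 = {1, swap 0 1} := by
  ext σ
  constructor
  · intro h
    rw [Set.mem_insert_iff, Set.mem_singleton_iff]
    by_cases h0 : σ 0 = 0
    · left
      ext i
      rw [Perm.one_apply]
      by_cases hi : 2 ≤ i
      · exact h.1 i hi
      · by_cases hi0 : i = 0
        · rw [hi0, h0]
        · have h1 := val_lt h.1 (show i < 2 by omega)
          have h2 : σ i ≠ 0 := fun h2 => hi0 (σ.injective (h2.trans h0.symm))
          omega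
    · right
      have h1 := val_lt h.1 (show 0 < 2 by omega)
      have h2 : σ 0 = 1 := by omega
      have h3 : σ 1 = 0 := by
        have h4 := val_lt h.1 (show 1 < 2 by omega)
        have h5 : σ 1 ≠ 1 := fun h5 => by
          have := σ.injective (h5.trans h2.symm)
          omega
        omega
      ext i
      by_cases hi : 2 ≤ i
      · rw [h.1 i hi, swap_apply_of_ne_of_ne (by omega) (by omega)]
      · by_cases hi0 : i = 0
        · rw [hi0, h2, swap_apply_left]
        · have : i = 1 := by omega
          rw [this, h3, swap_apply_right]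
  · intro h
    rw [Set.mem_insert_iff, Set.mem_singleton_iff] at h
    rcases h with rfl | rfl
    · exact one_mem 2
    · have := swap_mem (one_mem 0)
      rwa [one_mul] at this

theorem fin_card : ∀ n : ℕ, (T (n + 1)).Finite ∧ (T (n + 2)).Finite ∧
    (T (n + 1)).ncard + (n + 3) = 2 * Nat.fib (n + 3) ∧
    (T (n + 2)).ncard + (n + 4) = 2 * Nat.fib (n + 4) := by
  intro n
  induction n with
  | zero =>
    refine ⟨?_, ?_, ?_, ?_⟩
    · rw [zero_add, T_le_one le_rfl]; exact Set.finite_singleton _
    · rw [zero_add, T_two]; exact Set.toFinite _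
    · rw [zero_add, T_le_one le_rfl, Set.ncard_singleton]; decide
    · rw [zero_add, T_two, Set.ncard_pair]
      · decide
      · intro h
        have := congrArg (fun σ : Perm ℕ => σ 0) h
        simp at this
  | succ n ih =>
    obtain ⟨f1, f2, c1, c2⟩ := ih
    have hU := T_union (n + 1) (by omega)
    have fU : ((fun σ : Perm ℕ => σ * swap (n + 1) (n + 1 + 1)) '' T (n + 1)).Finite :=
      f1.image _
    have fR : ((fun k => rot' (n + 1 + 2) k) '' (Finset.Icc 1 (n + 1 + 1) : Set ℕ)).Finite :=
      (Finset.finite_toSet _).image _
    have cU : ((fun σ : Perm ℕ => σ * swap (n + 1) (n + 1 + 1)) '' T (n + 1)).ncard =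
        (T (n + 1)).ncard := Set.ncard_image_of_injective _ (mul_left_injective _)
    have hlast : ∀ k ∈ (Finset.Icc 1 (n + 1 + 1) : Set ℕ),
        rot' (n + 1 + 2) k (n + 1 + 1) = k - 1 := by
      intro k hk
      simp only [Finset.coe_Icc, Set.mem_Icc] at hk
      rw [rot'_apply (by omega)]
      unfold rotF
      rw [if_pos (by omega), if_neg (by omega)]
      omega
    have cR : ((fun k => rot' (n + 1 + 2) k) '' (Finset.Icc 1 (n + 1 + 1) : Set ℕ)).ncard =
        n + 2 := by
      rw [Set.ncard_image_of_injOn, Set.ncard_coe_finset, Nat.card_Icc]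
      · omega
      · intro k hk k' hk' h
        have h1 := congrArg (fun σ : Perm ℕ => σ (n + 1 + 1)) h
        simp only at h1
        rw [hlast k hk, hlast k' hk'] at h1
        simp only [Finset.coe_Icc, Set.mem_Icc] at hk hk'
        omega
    have hfinal : (T (n + 1 + 2)).ncard = (T (n + 2)).ncard + (T (n + 1)).ncard + (n + 2) := by
      rw [hU, Set.ncard_union_eq _ (f2.union fU) fR, Set.ncard_union_eq _ f2 fU, cU, cR]
      · rw [Set.disjoint_left]
        rintro σ h1 ⟨τ, hτ, h2⟩
        have h3 : σ (n + 1 + 1) = n + 1 + 1 := h1.1 _ le_rfl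
        rw [← h2] at h3
        simp only [Perm.mul_apply, swap_apply_right] at h3
        rw [hτ.1 (n + 1) le_rfl] at h3
        omega
      · rw [Set.disjoint_left]
        rintro σ h1 ⟨k, hk, h2⟩
        have h3 := hlast k hk
        simp only [Finset.coe_Icc, Set.mem_Icc] at hk
        simp only at h2
        rw [h2] at h3
        rcases h1 with h1 | ⟨τ, hτ, h4⟩
        · have h5 : σ (n + 1 + 1) = n + 1 + 1 := h1.1 _ le_rfl
          omega
        · have h5 : σ (n + 1 + 1) = n + 1 := by
            rw [← h4]
            simp only [Perm.mul_apply, swap_apply_right]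
            exact hτ.1 (n + 1) le_rfl
          have h6 : σ (n + 1) = n + 1 + 1 := by
            rw [← h4]
            simp only [Perm.mul_apply, swap_apply_left]
            exact hτ.1 (n + 1 + 1) (by omega)
          have h7 : k = n + 1 + 1 := by omega
          rw [← h2, h7, rot'_apply (by omega)] at h6
          unfold rotF at h6
          rw [if_pos (by omega), if_neg (by omega)] at h6
          omega
    refine ⟨f2, ?_, c2, ?_⟩
    · rw [hU]
      exact (f2.union fU).union fR
    · rw [hfinal]
      have e : Nat.fib (n + 1 + 4) = Nat.fib (n + 3) + Nat.fib (n + 4) := Nat.fib_add_two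
      omega

theorem card_T (n : ℕ) (hn : 1 ≤ n) : ((T n).ncard : ℤ) = 2 * Nat.fib (n + 2) - n - 2 := by
  obtain ⟨m, rfl⟩ : ∃ m, n = m + 1 := ⟨n - 1, by omega⟩
  have h := (fin_card m).2.2.1
  have e : m + 1 + 2 = m + 3 := by ring
  rw [e]
  push_cast
  omega

end Pool.Agent.N349.SAv
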