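import Mathlib
import Pool.Agent.N349.SAv2

set_option autoImplicit false

/-! Transfer from permutations of `Fin n` to permutations of `ℕ` fixing all `i ≥ n`. -/

namespace Pool.Agent.N349.SAv

open Equiv Finset

/-- `Perm (Fin n)` and the permutations of `ℕ` fixing all `i ≥ n`. -/
def ext (n : ℕ) : Perm (Fin n) ≃ {f : Perm ℕ // ∀ a, ¬ a < n → f a = a} :=
  (Equiv.permCongr Fin.equivSubtype).trans (Equiv.Perm.subtypeEquivSubtypePerm (fun i => i < n))

theorem ext_apply {n : ℕ} (π : Perm (Fin n)) (i : Fin n) : (ext n π).1 i = π i := by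
  unfold ext
  simp only [Equiv.trans_apply, Equiv.Perm.subtypeEquivSubtypePerm_apply_coe]
  rw [Equiv.Perm.ofSubtype_apply_of_mem (p := fun i => i < n) _ i.2]
  rfl

theorem ext_apply' {n : ℕ} (π : Perm (Fin n)) {i : ℕ} (hi : n ≤ i) : (ext n π).1 i = i :=
  (ext n π).2 i (by omega)

theorem lt_of_A {n : ℕ} {f : ℕ → ℕ} (h1 : ∀ i, i < n → f i < n) (h2 : ∀ i, n ≤ i → f i = i)
    {i j : ℕ} (hij : i < j) (h : f j < f i) : j < n := by
  by_contra hj
  have h3 := h2 j (by omega)
  by_cases h4 : i < n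
  · have := h1 i h4
    omega
  · have := h2 i (by omega)
    omega

end Pool.Agent.N349.SAv
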