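import Mathlib
import Pool.Agent.N349.SAv3

set_option autoImplicit false

/-! Permutations strongly avoiding `321` and `1342` are counted by `2 F_{n+2} - n - 2`. -/

namespace Pool.Agent.N349.StrongFibonacci

open Equiv

/-- The permutation `π` of `{0, …, n-1}` contains the pattern `τ` (a word of length `m`): there are
positions `f 0 < f 1 < ⋯ < f (m-1)` at which the values of `π` are in the same relative order as the
letters of `τ`. -/
def Contains {m n : ℕ} (τ : Fin m → ℕ) (π : Perm (Fin n)) : Prop :=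
  ∃ f : Fin m → Fin n, StrictMono f ∧ ∀ j k : Fin m, π (f j) < π (f k) ↔ τ j < τ k

/-- `π` strongly avoids `τ`: both `π` and `π²` avoid `τ`. -/
def StronglyAvoids {m n : ℕ} (τ : Fin m → ℕ) (π : Perm (Fin n)) : Prop :=
  ¬ Contains τ π ∧ ¬ Contains τ (π ^ 2)

open Pool.Agent.N349.SAv in
theorem contains321 {n : ℕ} (π : Perm (Fin n)) (g : ℕ → ℕ) (h1 : ∀ i : Fin n, g i = π i)
    (h2 : ∀ i, n ≤ i → g i = i) : ¬ Contains ![3, 2, 1] π ↔ A321 g := by
  have hlt : ∀ i, i < n → g i < n := fun i hi => by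
    rw [show g i = π ⟨i, hi⟩ from h1 ⟨i, hi⟩]
    exact (π ⟨i, hi⟩).2
  constructor
  · intro h i j k hij hjk ⟨h3, h4⟩
    have hk : k < n := lt_of_A hlt h2 hjk h3
    apply h
    refine ⟨![⟨i, by omega⟩, ⟨j, by omega⟩, ⟨k, hk⟩], ?_, ?_⟩
    · intro a b hab
      fin_cases a <;> fin_cases b <;> simp at hab ⊢ <;> omega
    · have e1 : ((π ⟨i, by omega⟩ : Fin n) : ℕ) = g i := (h1 ⟨i, by omega⟩).symm
      have e2 : ((π ⟨j, by omega⟩ : Fin n) : ℕ) = g j := (h1 ⟨j, by omega⟩).symm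
      have e3 : ((π ⟨k, by omega⟩ : Fin n) : ℕ) = g k := (h1 ⟨k, by omega⟩).symm
      intro a b
      fin_cases a <;> fin_cases b <;> simp [Fin.lt_def, e1, e2, e3] <;> omega
  · rintro h ⟨f, hf, hv⟩
    have a1 := (hv 2 1).mpr (by simp)
    have a2 := (hv 1 0).mpr (by simp)
    have b1 : f 0 < f 1 := hf (by simp)
    have b2 : f 1 < f 2 := hf (by simp)
    refine h (f 0) (f 1) (f 2) b1 b2 ⟨?_, ?_⟩
    · rw [h1, h1]; exact a1
    · rw [h1, h1]; exact a2

open Pool.Agent.N349.SAv in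
theorem contains1342 {n : ℕ} (π : Perm (Fin n)) (g : ℕ → ℕ) (h1 : ∀ i : Fin n, g i = π i)
    (h2 : ∀ i, n ≤ i → g i = i) : ¬ Contains ![1, 3, 4, 2] π ↔ A1342 g := by
  have hlt : ∀ i, i < n → g i < n := fun i hi => by
    rw [show g i = π ⟨i, hi⟩ from h1 ⟨i, hi⟩]
    exact (π ⟨i, hi⟩).2
  constructor
  · intro h i j k l hij hjk hkl ⟨h3, h4, h5⟩
    have hl : l < n := lt_of_A hlt h2 hkl (by omega)
    apply h
    refine ⟨![⟨i, by omega⟩, ⟨j, by omega⟩, ⟨k, by omega⟩, ⟨l, hl⟩], ?_, ?_⟩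
    · intro a b hab
      fin_cases a <;> fin_cases b <;> simp at hab ⊢ <;> omega
    · have e1 : ((π ⟨i, by omega⟩ : Fin n) : ℕ) = g i := (h1 ⟨i, by omega⟩).symm
      have e2 : ((π ⟨j, by omega⟩ : Fin n) : ℕ) = g j := (h1 ⟨j, by omega⟩).symm
      have e3 : ((π ⟨k, by omega⟩ : Fin n) : ℕ) = g k := (h1 ⟨k, by omega⟩).symm
      have e4 : ((π ⟨l, by omega⟩ : Fin n) : ℕ) = g l := (h1 ⟨l, by omega⟩).symm
      intro a b
      fin_cases a <;> fin_cases b <;> simp [Fin.lt_def, e1, e2, e3, e4] <;> omega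
  · rintro h ⟨f, hf, hv⟩
    have a1 := (hv 0 3).mpr (by simp)
    have a2 := (hv 3 1).mpr (by simp)
    have a3 := (hv 1 2).mpr (by simp)
    have b1 : f 0 < f 1 := hf (by simp)
    have b2 : f 1 < f 2 := hf (by simp)
    have b3 : f 2 < f 3 := hf (by simp)
    refine h (f 0) (f 1) (f 2) (f 3) b1 b2 b3 ⟨?_, ?_, ?_⟩
    · rw [h1, h1]; exact a1
    · rw [h1, h1]; exact a2
    · rw [h1, h1]; exact a3

open Pool.Agent.N349.SAv in
theorem mem_iff {n : ℕ} (π : Perm (Fin n)) :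
    (StronglyAvoids ![3, 2, 1] π ∧ StronglyAvoids ![1, 3, 4, 2] π) ↔ (ext n π).1 ∈ T n := by
  have g1 : ∀ i : Fin n, (ext n π).1 i = π i := ext_apply π
  have g2 : ∀ i, n ≤ i → (ext n π).1 i = i := fun i hi => ext_apply' π hi
  have g3 : ∀ i : Fin n, (fun i => (ext n π).1 ((ext n π).1 i)) (i : ℕ) = ((π ^ 2) i : Fin n) := by
    intro i
    simp only [pow_two, Perm.mul_apply]
    rw [g1 i, g1 (π i)]
  have g4 : ∀ i, n ≤ i → (fun i => (ext n π).1 ((ext n π).1 i)) i = i := by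
    intro i hi
    simp only
    rw [g2 i hi, g2 i hi]
  unfold StronglyAvoids
  rw [contains321 π _ g1 g2, contains1342 π _ g1 g2, contains321 (π ^ 2) _ g3 g4,
    contains1342 (π ^ 2) _ g3 g4]
  constructor
  · rintro ⟨⟨a, c⟩, b, d⟩
    exact ⟨g2, a, b, c, d⟩
  · rintro ⟨-, a, b, c, d⟩
    exact ⟨⟨a, c⟩, b, d⟩

/-- For every `n ≥ 1` the number of the permutations `π` of size `n` such that both `π` and `π²`
avoid `321` and `1342` equals `2 F_{n+2} - n - 2`. -/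
theorem card_stronglyAvoids (n : ℕ) (hn : 1 ≤ n) :
    (Nat.card {π : Perm (Fin n) // StronglyAvoids ![3, 2, 1] π ∧ StronglyAvoids ![1, 3, 4, 2] π} : ℤ)
      = 2 * Nat.fib (n + 2) - n - 2 := by
  rw [← Pool.Agent.N349.SAv.card_T n hn, ← Nat.card_coe_set_eq]
  congr 1
  apply Nat.card_congr
  refine Equiv.ofBijective (fun π => ⟨(Pool.Agent.N349.SAv.ext n π.1).1, (mem_iff π.1).mp π.2⟩)
    ⟨?_, ?_⟩
  · intro π π' h
    have h1 := congrArg Subtype.val h
    exact Subtype.ext ((Pool.Agent.N349.SAv.ext n).injective (Subtype.ext h1))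
  · rintro ⟨σ, hσ⟩
    obtain ⟨π, hπ⟩ := (Pool.Agent.N349.SAv.ext n).surjective ⟨σ, fun a ha => hσ.1 a (by omega)⟩
    have h1 : (Pool.Agent.N349.SAv.ext n π).1 = σ := by rw [hπ]
    exact ⟨⟨π, (mem_iff π).mpr (by rw [h1]; exact hσ)⟩, Subtype.ext h1⟩

end Pool.Agent.N349.StrongFibonacci
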